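import Pool.Agent.H90.WC.Basic

/-!
Wandering continua through generic points (problem MP_90715c_gt, FatAtGeneric): definitions.
-/

open Matrix Set Filter Topology

namespace Pool.Agent.H81.FG

open Pool.Agent.H90.WC

/-- `p` is generic for `Γ`: for all pairs of different points `x`, `y` some `g ∈ Γ` which expands
strongly at `p` maps `p` close to `x` and the point at infinity close to `y`. -/
def Gen (Γ : Subgroup G) (p : ℂ) : Prop :=
  ∀ x y : ℂ, x ≠ y → ∀ ρ > (0 : ℝ), ∃ g ∈ Γ, g 1 0 * p + g 1 1 ≠ 0 ∧ ρ⁻¹ < ‖g 1 0‖ ∧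
    ‖mob g p - x‖ < ρ ∧ ‖g 0 0 / g 1 0 - y‖ < ρ

end Pool.Agent.H81.FG
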