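import Pool.Agent.H81.FG.Gen1
import Pool.Agent.H20.WC.Main

/-!
Generic points of a discrete cocompact subgroup of `SL(2, ℂ)` are residual (problem
MP_90715c_gt, FatAtGeneric).
-/

open Matrix Set Filter Topology

namespace Pool.Agent.H81.FG

open Pool.Agent.H90.WC Pool.Agent.H81.TG

lemma fr_entries (y p₀ : ℂ) (t : ℝ) (ht : 0 < t) (m : G) :
    (fr y t ht * m * (fr p₀ t ht)⁻¹) 0 0 = m 0 0 + y * m 1 0 / t ∧
    (fr y t ht * m * (fr p₀ t ht)⁻¹) 0 1 =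
      -m 0 0 * p₀ - y * m 1 0 * p₀ / t + t * m 0 1 + y * m 1 1 ∧
    (fr y t ht * m * (fr p₀ t ht)⁻¹) 1 0 = m 1 0 / t ∧
    (fr y t ht * m * (fr p₀ t ht)⁻¹) 1 1 = m 1 1 - m 1 0 * p₀ / t := by
  have h0 : ((Real.sqrt t : ℝ) : ℂ) ≠ 0 := by exact_mod_cast (Real.sqrt_pos.2 ht).ne'
  have h2 : (t : ℂ) = ((Real.sqrt t : ℝ) : ℂ) * ((Real.sqrt t : ℝ) : ℂ) := by
    rw [← Complex.ofReal_mul, Real.mul_self_sqrt ht.le]
  refine ⟨?_, ?_, ?_, ?_⟩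
  · rw [mul_00, mul_00, mul_01, inv_00, inv_10, fr_00, fr_01, fr_10, fr_11, h2]
    field_simp
    ring
  · rw [mul_01, mul_00, mul_01, inv_01, inv_11, fr_00, fr_00, fr_01, fr_01, h2]
    field_simp
    ring
  · rw [mul_10, mul_10, mul_11, inv_00, inv_10, fr_10, fr_10, fr_11, fr_11, h2]
    field_simp
    ring
  · rw [mul_11, mul_10, mul_11, inv_01, inv_11, fr_10, fr_11, fr_01, fr_00, h2]
    field_simp
    ring

/-- The preimage of `x`. -/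
lemma hit (g : G) (a b c d x y p₀ t D : ℂ) (ht : t ≠ 0) (hdet : a * d - b * c = 1)
    (h00 : g 0 0 = a + y * c / t) (h01 : g 0 1 = -a * p₀ - y * c * p₀ / t + t * b + y * d)
    (h10 : g 1 0 = c / t) (h11 : g 1 1 = d - c * p₀ / t) (hDe : D = a * t - c * (x - y))
    (hD : D ≠ 0) :
    g 1 0 * (p₀ + t * (d * (x - y) - b * t) / D) + g 1 1 ≠ 0 ∧
      mob g (p₀ + t * (d * (x - y) - b * t) / D) = x := by
  have e1 : g 1 0 * (p₀ + t * (d * (x - y) - b * t) / D) + g 1 1 = t / D := by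
    rw [h10, h11, eq_div_iff hD]
    have : (c / t * (p₀ + t * (d * (x - y) - b * t) / D) + (d - c * p₀ / t)) * D =
        c * (d * (x - y) - b * t) + d * D := by
      field_simp
      ring
    rw [this, hDe]
    linear_combination t * hdet
  have e2 : g 0 0 * (p₀ + t * (d * (x - y) - b * t) / D) + g 0 1 = t * x / D := by
    rw [h00, h01, eq_div_iff hD]
    have : ((a + y * c / t) * (p₀ + t * (d * (x - y) - b * t) / D) +
        (-a * p₀ - y * c * p₀ / t + t * b + y * d)) * D =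
        (a * t + y * c) * (d * (x - y) - b * t) + (t * b + y * d) * D := by
      field_simp
      ring
    rw [this, hDe]
    linear_combination (t * (x - y) + y * t) * hdet
  have e3 : t / D ≠ 0 := div_ne_zero ht hD
  refine ⟨by rw [e1]; exact e3, ?_⟩
  unfold mob
  rw [e1, e2, div_div_div_cancel_right₀ hD, mul_div_cancel_left₀ _ ht]

/-- The points which are good for `x`, `y`, `ρ`. -/
def Og (Γ : Subgroup G) (x y : ℂ) (ρ : ℝ) : Set ℂ :=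
  {p | ∃ g ∈ Γ, g 1 0 * p + g 1 1 ≠ 0 ∧ ρ⁻¹ < ‖g 1 0‖ ∧ ‖mob g p - x‖ < ρ ∧
    ‖g 0 0 / g 1 0 - y‖ < ρ}

lemma isOpen_Og (Γ : Subgroup G) (x y : ℂ) (ρ : ℝ) : IsOpen (Og Γ x y ρ) := by
  rw [isOpen_iff_mem_nhds]
  rintro p ⟨g, hg, h1, h2, h3, h4⟩
  have c1 : ContinuousAt (fun p : ℂ => g 1 0 * p + g 1 1) p := by fun_prop
  have c2 : ContinuousAt (fun p : ℂ => ‖mob g p - x‖) p := by
    unfold mob
    exact ((ContinuousAt.div (by fun_prop) c1 h1).sub continuousAt_const).norm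
  filter_upwards [c1.eventually (isOpen_ne.mem_nhds h1), c2.eventually (gt_mem_nhds h3)]
    with q q1 q2
  exact ⟨g, hg, q1, h2, q2, h4⟩

lemma dense_Og (Γ : Subgroup G) {C U : Set G} (hC : IsCompact C)
    (hcoc : ∀ g : G, ∃ γ ∈ Γ, γ * g ∈ C) (hU : IsOpen U) (h1U : (1 : G) ∈ U)
    (hΓU : ∀ g ∈ Γ, g ∈ U → g = 1) {x y : ℂ} (hxy : x ≠ y) {ρ : ℝ} (hρ : 0 < ρ) :
    Dense (Og Γ x y ρ) := by
  rw [Metric.dense_iff]
  intro p₀ ε hε
  have ht : ∀ n : ℕ, 0 < 1 / ((n : ℝ) + 1) := fun n => by positivity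
  set t : ℕ → ℝ := fun n => 1 / ((n : ℝ) + 1) with htdef
  choose γ₁ h₁ h₁C using fun n => hcoc (fr y (t n) (ht n))
  choose γ₂ h₂ h₂C using fun n => hcoc (fr p₀ (t n) (ht n))
  obtain ⟨W, hW⟩ : ∃ W : Ultrafilter ℕ, (W : Filter ℕ) ≤ atTop := ⟨Ultrafilter.of atTop,
    Ultrafilter.of_le _⟩
  obtain ⟨a₁, -, ha₁⟩ := hC.ultrafilter_le_nhds' (W.map fun n => γ₁ n * fr y (t n) (ht n))
    (by
      rw [Ultrafilter.mem_map]
      exact Filter.univ_mem' h₁C)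
  obtain ⟨a₂, -, ha₂⟩ := hC.ultrafilter_le_nhds' (W.map fun n => γ₂ n * fr p₀ (t n) (ht n))
    (by
      rw [Ultrafilter.mem_map]
      exact Filter.univ_mem' h₂C)
  have ha₁' : Tendsto (fun n => γ₁ n * fr y (t n) (ht n)) W (𝓝 a₁) := ha₁
  have ha₂' : Tendsto (fun n => γ₂ n * fr p₀ (t n) (ht n)) W (𝓝 a₂) := ha₂
  obtain ⟨δ, hδ, hδ0⟩ := exists_ne Γ hC hcoc hU h1U hΓU a₁ a₂
  set m : ℕ → G := fun n =>
    (γ₁ n * fr y (t n) (ht n))⁻¹ * δ * (γ₂ n * fr p₀ (t n) (ht n)) with hm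
  have hmt : Tendsto m W (𝓝 (a₁⁻¹ * δ * a₂)) := (ha₁'.inv.mul_const δ).mul ha₂'
  have hme : ∀ i j, Tendsto (fun n => m n i j) W (𝓝 ((a₁⁻¹ * δ * a₂) i j)) := tendsto_iff.1 hmt
  have htR : Tendsto t W (𝓝 0) :=
    (tendsto_one_div_add_atTop_nhds_zero_nat (𝕜 := ℝ)).mono_left hW
  have htC : Tendsto (fun n => ((t n : ℝ) : ℂ)) W (𝓝 0) := by
    have := (Complex.continuous_ofReal.tendsto 0).comp htR
    rwa [Complex.ofReal_zero] at this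
  have hxy' : x - y ≠ 0 := sub_ne_zero.2 hxy
  -- the denominator
  have hDt : Tendsto (fun n => m n 0 0 * (t n : ℂ) - m n 1 0 * (x - y)) W
      (𝓝 ((a₁⁻¹ * δ * a₂) 0 0 * 0 - (a₁⁻¹ * δ * a₂) 1 0 * (x - y))) :=
    ((hme 0 0).mul htC).sub ((hme 1 0).mul_const _)
  have hDne : (a₁⁻¹ * δ * a₂) 0 0 * 0 - (a₁⁻¹ * δ * a₂) 1 0 * (x - y) ≠ 0 := by
    rw [mul_zero, zero_sub]
    exact neg_ne_zero.2 (mul_ne_zero hδ0 hxy')
  -- the points
  set p : ℕ → ℂ := fun n => p₀ + (t n : ℂ) * (m n 1 1 * (x - y) - m n 0 1 * (t n : ℂ)) /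
    (m n 0 0 * (t n : ℂ) - m n 1 0 * (x - y)) with hp
  have hpt : Tendsto p W (𝓝 p₀) := by
    have h1 : Tendsto (fun n => (t n : ℂ) * (m n 1 1 * (x - y) - m n 0 1 * (t n : ℂ))) W
        (𝓝 (0 * ((a₁⁻¹ * δ * a₂) 1 1 * (x - y) - (a₁⁻¹ * δ * a₂) 0 1 * 0))) :=
      htC.mul (((hme 1 1).mul_const _).sub ((hme 0 1).mul htC))
    have h2 := (h1.div hDt hDne).const_add p₀
    rwa [zero_mul, zero_div, add_zero] at h2
  -- the lower left entry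
  have hc1 : ∀ᶠ n in (W : Filter ℕ), ‖(a₁⁻¹ * δ * a₂) 1 0‖ / 2 < ‖m n 1 0‖ :=
    (hme 1 0).norm.eventually (lt_mem_nhds (by
      have := norm_pos_iff.2 hδ0
      linarith))
  have hc2 : ∀ᶠ n in (W : Filter ℕ), t n < ρ * (‖(a₁⁻¹ * δ * a₂) 1 0‖ / 2) :=
    htR.eventually (gt_mem_nhds (by
      have := norm_pos_iff.2 hδ0
      positivity))
  have hc3 : Tendsto (fun n => (t n : ℂ) * m n 0 0 / m n 1 0) W (𝓝 0) := by
    have := (htC.mul (hme 0 0)).div (hme 1 0) hδ0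
    rwa [zero_mul, zero_div] at this
  have hc4 : ∀ᶠ n in (W : Filter ℕ), ‖(t n : ℂ) * m n 0 0 / m n 1 0‖ < ρ := by
    have := hc3.norm
    rw [norm_zero] at this
    exact this.eventually (gt_mem_nhds hρ)
  have hc5 : ∀ᶠ n in (W : Filter ℕ), p n ∈ Metric.ball p₀ ε :=
    hpt.eventually (Metric.ball_mem_nhds p₀ hε)
  have hc6 : ∀ᶠ n in (W : Filter ℕ), m n 0 0 * (t n : ℂ) - m n 1 0 * (x - y) ≠ 0 :=
    hDt.eventually (isOpen_ne.mem_nhds hDne)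
  obtain ⟨n, n1, n2, n4, n5, n6⟩ := (hc1.and (hc2.and (hc4.and (hc5.and hc6)))).exists
  refine ⟨p n, n5, (γ₁ n)⁻¹ * δ * γ₂ n, Γ.mul_mem (Γ.mul_mem (Γ.inv_mem (h₁ n)) hδ) (h₂ n), ?_⟩
  have eg : (γ₁ n)⁻¹ * δ * γ₂ n = fr y (t n) (ht n) * m n * (fr p₀ (t n) (ht n))⁻¹ := by
    rw [hm]; group
  obtain ⟨g00, g01, g10, g11⟩ := fr_entries y p₀ (t n) (ht n) (m n)
  rw [← eg] at g00 g01 g10 g11
  have htn : ((t n : ℝ) : ℂ) ≠ 0 := Complex.ofReal_ne_zero.2 (ht n).ne'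
  have hcn : m n 1 0 ≠ 0 := by
    intro h
    rw [h, norm_zero] at n1
    have := norm_nonneg ((a₁⁻¹ * δ * a₂) 1 0)
    linarith
  obtain ⟨r1, r2⟩ := hit ((γ₁ n)⁻¹ * δ * γ₂ n) (m n 0 0) (m n 0 1) (m n 1 0) (m n 1 1) x y p₀
    (t n) _ htn (det_eq (m n)) g00 g01 g10 g11 rfl n6
  refine ⟨r1, ?_, ?_, ?_⟩
  · rw [g10, norm_div, Complex.norm_real, Real.norm_of_nonneg (ht n).le, lt_div_iff₀ (ht n)]
    calc ρ⁻¹ * t n < ρ⁻¹ * (ρ * (‖(a₁⁻¹ * δ * a₂) 1 0‖ / 2)) := by gcongr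
      _ = ‖(a₁⁻¹ * δ * a₂) 1 0‖ / 2 := inv_mul_cancel_left₀ hρ.ne' _
      _ < ‖m n 1 0‖ := n1
  · have e : mob ((γ₁ n)⁻¹ * δ * γ₂ n) (p n) = x := r2
    rw [e, sub_self, norm_zero]
    exact hρ
  · have e : ((γ₁ n)⁻¹ * δ * γ₂ n) 0 0 / ((γ₁ n)⁻¹ * δ * γ₂ n) 1 0 - y =
        (t n : ℂ) * m n 0 0 / m n 1 0 := by
      rw [g00, g10]
      field_simp
      ring
    rw [e]
    exact n4

/-- Generic points are residual. -/
theorem gen_residual (Γ : Subgroup G) [DiscreteTopology Γ] [CompactSpace (G ⧸ Γ)] :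
    {p : ℂ | Gen Γ p} ∈ residual ℂ := by
  obtain ⟨C, hC, hcoc⟩ := coc_of_compact Γ
  obtain ⟨U, hU, h1U, hΓU⟩ := disc_of_discrete Γ
  obtain ⟨Q, hQc, hQd⟩ := TopologicalSpace.exists_countable_dense ℂ
  have : Countable Q := hQc.to_subtype
  have key : (⋂ (q : Q) (q' : Q) (n : ℕ), {p : ℂ | (q : ℂ) ≠ q' →
      p ∈ Og Γ q q' (1 / ((n : ℝ) + 1))}) ∈ residual ℂ := by
    refine countable_iInter_mem.2 fun q => countable_iInter_mem.2 fun q' =>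
      countable_iInter_mem.2 fun n => ?_
    by_cases h : (q : ℂ) = q'
    · have e : {p : ℂ | (q : ℂ) ≠ q' → p ∈ Og Γ q q' (1 / ((n : ℝ) + 1))} = univ :=
        Set.eq_univ_of_forall fun p hp => absurd h hp
      rw [e]
      exact univ_mem
    · refine mem_of_superset (residual_of_dense_open (isOpen_Og Γ q q' (1 / ((n : ℝ) + 1)))
        (dense_Og Γ hC hcoc hU h1U hΓU h (by positivity))) fun p hp _ => hp
  refine mem_of_superset key fun p hp => ?_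
  intro x y hxy ρ hρ
  set η : ℝ := min (ρ / 2) (‖x - y‖ / 4) with hη
  have hxy0 : 0 < ‖x - y‖ := norm_pos_iff.2 (sub_ne_zero.2 hxy)
  have hη0 : 0 < η := lt_min (by linarith) (by linarith)
  obtain ⟨q, hq, hqx⟩ := hQd.exists_dist_lt x hη0
  obtain ⟨q', hq', hqy⟩ := hQd.exists_dist_lt y hη0
  obtain ⟨n, hn⟩ := exists_nat_one_div_lt (show 0 < ρ / 2 by linarith)
  rw [dist_eq_norm] at hqx hqy
  have hη1 : η ≤ ρ / 2 := min_le_left _ _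
  have hη2 : η ≤ ‖x - y‖ / 4 := min_le_right _ _
  have hqq : q ≠ q' := by
    intro h
    subst h
    have e : x - y = (x - q) - (y - q) := by ring
    have h1 : ‖x - y‖ ≤ ‖x - q‖ + ‖y - q‖ := by
      rw [e]
      exact norm_sub_le _ _
    linarith
  have h1 := Set.mem_iInter.1 (Set.mem_iInter.1 (Set.mem_iInter.1 hp ⟨q, hq⟩) ⟨q', hq'⟩) n
  obtain ⟨g, hg, g1, g2, g3, g4⟩ := h1 hqq
  have hn0 : (0 : ℝ) < 1 / ((n : ℝ) + 1) := by positivity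
  refine ⟨g, hg, g1, ?_, ?_, ?_⟩
  · refine lt_of_le_of_lt ?_ g2
    exact inv_anti₀ hn0 (by linarith)
  · have e : mob g p - x = (mob g p - q) - (x - q) := by ring
    rw [e]
    refine lt_of_le_of_lt (norm_sub_le _ _) ?_
    have g3' : ‖mob g p - q‖ < 1 / ((n : ℝ) + 1) := g3
    linarith
  · have e : g 0 0 / g 1 0 - y = (g 0 0 / g 1 0 - q') - (y - q') := by ring
    rw [e]
    refine lt_of_le_of_lt (norm_sub_le _ _) ?_
    have g4' : ‖g 0 0 / g 1 0 - q'‖ < 1 / ((n : ℝ) + 1) := g4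
    linarith

end Pool.Agent.H81.FG
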