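import Pool.Agent.H81.FG.Gen

/-!
Almost every point is generic for a discrete cocompact subgroup of `SL(2, ℂ)` (problem
MP_90715c_gt, FatAtGeneric).
-/

open Matrix Set Filter Topology

namespace Pool.Agent.H81.FG

open Pool.Agent.H90.WC Pool.Agent.H81.TG

/-- One element of the group which maps a point of the image of the disc close to `x` and the
image of infinity close to `y`. -/
lemma frame_hit (Γ : Subgroup G) {x y : ℂ} (hd : ∀ ρ : ℝ, 0 < ρ → Dense (Og Γ x y ρ))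
    (hxy : x ≠ y) {ρ : ℝ} (hρ : 0 < ρ) (c : G) :
    ∃ g ∈ Γ, ∃ w : ℂ, ‖w‖ < 1 ∧ (g * c) 1 0 ≠ 0 ∧ (g * c) 1 0 * w + (g * c) 1 1 ≠ 0 ∧
      ‖mob (g * c) w - x‖ < ρ ∧ ‖(g * c) 0 0 / (g * c) 1 0 - y‖ < ρ := by
  have hdet := det_eq c
  -- a point of the disc which is not mapped to infinity
  obtain ⟨w₁, hw₁, hd₁⟩ : ∃ w₁ : ℂ, ‖w₁‖ < 1 ∧ c 1 0 * w₁ + c 1 1 ≠ 0 := by
    by_cases h : c 1 1 = 0
    · refine ⟨1 / 2, by norm_num, ?_⟩
      rw [h, add_zero]
      intro h0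
      have h1 : c 1 0 = 0 := by
        rcases mul_eq_zero.1 h0 with h2 | h2
        · exact h2
        · norm_num at h2
      rw [h, h1, mul_zero, mul_zero, sub_zero] at hdet
      exact zero_ne_one hdet
    · exact ⟨0, by simp, by rwa [mul_zero, zero_add]⟩
  set z₁ : ℂ := mob c w₁ with hz₁
  have ez : (c 1 0 * w₁ + c 1 1) * z₁ = c 0 0 * w₁ + c 0 1 := by
    rw [hz₁]
    unfold mob
    field_simp
  have hden : c 0 0 - c 1 0 * z₁ ≠ 0 := by
    intro h0
    apply one_ne_zero (α := ℂ)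
    linear_combination -hdet + (c 1 0 * w₁ + c 1 1) * h0 + c 1 0 * ez
  have hinv : (c 1 1 * z₁ - c 0 1) / (c 0 0 - c 1 0 * z₁) = w₁ := by
    rw [div_eq_iff hden]
    linear_combination ez
  have cont : ContinuousAt (fun z : ℂ => (c 1 1 * z - c 0 1) / (c 0 0 - c 1 0 * z)) z₁ :=
    ContinuousAt.div (by fun_prop) (by fun_prop) hden
  have ev1 : ∀ᶠ z in 𝓝 z₁, ‖(c 1 1 * z - c 0 1) / (c 0 0 - c 1 0 * z)‖ < 1 := by
    refine cont.norm.eventually (gt_mem_nhds ?_)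
    show ‖(c 1 1 * z₁ - c 0 1) / (c 0 0 - c 1 0 * z₁)‖ < 1
    rw [hinv]
    exact hw₁
  have ev2 : ∀ᶠ z in 𝓝 z₁, c 0 0 - c 1 0 * z ≠ 0 := by
    have c2 : ContinuousAt (fun z : ℂ => c 0 0 - c 1 0 * z) z₁ := by fun_prop
    exact c2.eventually (isOpen_ne.mem_nhds hden)
  -- the constants
  set B : ℝ := ‖c 1 0‖ + ‖c 1 1‖ + 1 with hB
  have hB1 : 1 ≤ B := by
    have := norm_nonneg (c 1 0)
    have := norm_nonneg (c 1 1)
    linarith
  have hB0 : 0 < B := by linarith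
  set E : ℝ := 4 * B * ‖c 1 0‖ + 1 with hE
  have hE1 : 1 ≤ E := by
    have : 0 ≤ 4 * B * ‖c 1 0‖ := by positivity
    linarith
  have hE0 : 0 < E := by linarith
  have hL : 0 < ‖x - y‖ := norm_pos_iff.2 (sub_ne_zero.2 hxy)
  set η : ℝ := min (min (ρ / 2) (‖x - y‖ / 4)) (1 / E) with hη
  have hη0 : 0 < η := lt_min (lt_min (by linarith) (by linarith)) (by positivity)
  have hη1 : η ≤ ρ / 2 := (min_le_left _ _).trans (min_le_left _ _)
  have hη2 : η ≤ ‖x - y‖ / 4 := (min_le_left _ _).trans (min_le_right _ _)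
  have hη3 : η * E ≤ 1 := by
    have : η ≤ 1 / E := min_le_right _ _
    rwa [le_div_iff₀ hE0] at this
  have hη4 : η ^ 2 * (4 * B * ‖c 1 0‖) < η := by
    have h1 : η ^ 2 * (4 * B * ‖c 1 0‖) < η ^ 2 * E := by
      apply mul_lt_mul_of_pos_left _ (by positivity)
      rw [hE]; linarith
    have h2 : η ^ 2 * E ≤ η * 1 := by
      rw [pow_two, mul_assoc]
      gcongr
    linarith
  -- the element
  obtain ⟨p, hpO, hp1, hp2⟩ : ∃ p ∈ Og Γ x y η,
      ‖(c 1 1 * p - c 0 1) / (c 0 0 - c 1 0 * p)‖ < 1 ∧ c 0 0 - c 1 0 * p ≠ 0 := by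
    have h := (hd η hη0).inter_nhds_nonempty (ev1.and ev2)
    obtain ⟨p, h1, h2⟩ := h
    exact ⟨p, h1, h2.1, h2.2⟩
  obtain ⟨g, hg, g1, g2, g3, g4⟩ := hpO
  set w : ℂ := (c 1 1 * p - c 0 1) / (c 0 0 - c 1 0 * p) with hw
  have ew : w * (c 0 0 - c 1 0 * p) = c 1 1 * p - c 0 1 := by
    rw [hw, div_mul_cancel₀ _ hp2]
  -- the denominator of `c` at `w`
  have e1 : (c 1 0 * w + c 1 1) * (c 0 0 - c 1 0 * p) = 1 := by
    linear_combination hdet + c 1 0 * ew
  have hcw : c 1 0 * w + c 1 1 ≠ 0 := left_ne_zero_of_mul_eq_one e1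
  have e2 : c 0 0 * w + c 0 1 = p * (c 1 0 * w + c 1 1) := by
    linear_combination ew
  have hcwB : ‖c 1 0 * w + c 1 1‖ ≤ B := by
    refine (norm_add_le _ _).trans ?_
    rw [norm_mul]
    have h1 : ‖c 1 0‖ * ‖w‖ ≤ ‖c 1 0‖ * 1 := by gcongr
    linarith
  -- the denominators
  set a : ℝ := ‖g 1 0‖ with ha
  have haη : 1 < η * a := by
    have := mul_lt_mul_of_pos_left g2 hη0
    rwa [mul_inv_cancel₀ hη0.ne'] at this
  have ha0 : 0 < a := by
    by_contra h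
    push Not at h
    nlinarith
  have hg10 : g 1 0 ≠ 0 := norm_pos_iff.1 ha0
  set b : ℝ := ‖g 1 0 * p + g 1 1‖ with hb
  have hb0 : 0 < b := norm_pos_iff.2 g1
  have hab : a * b * ‖mob g p - g 0 0 / g 1 0‖ = 1 := by
    have : g 1 0 * (g 1 0 * p + g 1 1) * (mob g p - g 0 0 / g 1 0) = -1 := by
      unfold mob
      have := det_eq g
      field_simp
      linear_combination -this
    rw [ha, hb, ← norm_mul, ← norm_mul, this, norm_neg, norm_one]
  have hlow : ‖x - y‖ / 2 ≤ ‖mob g p - g 0 0 / g 1 0‖ := by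
    have e : x - y = (mob g p - g 0 0 / g 1 0) - (mob g p - x) + (g 0 0 / g 1 0 - y) := by ring
    have h1 := norm_add_le ((mob g p - g 0 0 / g 1 0) - (mob g p - x)) (g 0 0 / g 1 0 - y)
    have h2 := norm_sub_le (mob g p - g 0 0 / g 1 0) (mob g p - x)
    rw [← e] at h1
    linarith
  have hab2 : a * b * ‖x - y‖ ≤ 2 := by
    have h1 : a * b * (‖x - y‖ / 2) ≤ a * b * ‖mob g p - g 0 0 / g 1 0‖ := by gcongr
    rw [hab] at h1
    linarith
  -- the lower left entry of the product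
  have h10 : (g * c) 1 0 = g 1 0 * (c 0 0 - c 1 0 * p) + (g 1 0 * p + g 1 1) * c 1 0 := by
    rw [mul_10]; ring
  have hn : 1 / B ≤ ‖c 0 0 - c 1 0 * p‖ := by
    have h1 := congrArg norm e1
    rw [norm_mul, norm_one] at h1
    rw [div_le_iff₀ hB0]
    calc (1 : ℝ) = ‖c 1 0 * w + c 1 1‖ * ‖c 0 0 - c 1 0 * p‖ := h1.symm
      _ ≤ B * ‖c 0 0 - c 1 0 * p‖ := by gcongr
      _ = _ := mul_comm _ _
  have ha2 : 1 < η ^ 2 * a ^ 2 := by
    nlinarith
  have hsmall : 4 * B * ‖c 1 0‖ ≤ a ^ 2 * η := by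
    have h1 : 0 < a ^ 2 := by positivity
    have h2 := mul_lt_mul_of_pos_left hη4 h1
    have h3 : 0 ≤ 4 * B * ‖c 1 0‖ := by positivity
    nlinarith
  have hcb : b * ‖c 1 0‖ ≤ a / (2 * B) := by
    rw [le_div_iff₀ (by positivity)]
    have h1 : a * b * ‖x - y‖ * (2 * B * ‖c 1 0‖) ≤ 2 * (2 * B * ‖c 1 0‖) := by gcongr
    have h2 : 4 * B * ‖c 1 0‖ ≤ a ^ 2 * (‖x - y‖ / 4) := hsmall.trans (by gcongr)
    have h3 : (a * ‖x - y‖) * (b * ‖c 1 0‖ * (2 * B)) ≤ (a * ‖x - y‖) * (a / 4) := by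
      nlinarith
    have h4 := le_of_mul_le_mul_left h3 (by positivity)
    linarith
  have hh : a / (2 * B) ≤ ‖(g * c) 1 0‖ := by
    rw [h10]
    have h1 := norm_sub_norm_le (g 1 0 * (c 0 0 - c 1 0 * p)) (-((g 1 0 * p + g 1 1) * c 1 0))
    rw [sub_neg_eq_add, norm_neg, norm_mul, norm_mul] at h1
    have h2 : a * (1 / B) ≤ ‖g 1 0‖ * ‖c 0 0 - c 1 0 * p‖ := by gcongr
    have h3 : a * (1 / B) = a / (2 * B) + a / (2 * B) := by field_simp; ring
    linarith
  have hh0 : 0 < ‖(g * c) 1 0‖ := lt_of_lt_of_le (by positivity) hh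
  have hhne : (g * c) 1 0 ≠ 0 := norm_pos_iff.1 hh0
  have hden2 : (g * c) 1 0 * w + (g * c) 1 1 = (c 1 0 * w + c 1 1) * (g 1 0 * p + g 1 1) := by
    rw [mul_10, mul_11]
    linear_combination g 1 0 * e2
  have hnum2 : (g * c) 0 0 * w + (g * c) 0 1 = (c 1 0 * w + c 1 1) * (g 0 0 * p + g 0 1) := by
    rw [mul_00, mul_01]
    linear_combination g 0 0 * e2
  refine ⟨g, hg, w, hp1, hhne, ?_, ?_, ?_⟩
  · rw [hden2]
    exact mul_ne_zero hcw g1
  · have : mob (g * c) w = mob g p := by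
      unfold mob
      rw [hden2, hnum2, mul_div_mul_left _ _ hcw]
    rw [this]
    linarith
  · have e3 : (g * c) 0 0 / (g * c) 1 0 - g 0 0 / g 1 0 = -(c 1 0) / (g 1 0 * (g * c) 1 0) := by
      rw [div_sub_div _ _ hhne hg10, div_eq_div_iff (mul_ne_zero hhne hg10)
        (mul_ne_zero hg10 hhne)]
      rw [mul_00, mul_10]
      have := det_eq g
      linear_combination (-(c 1 0) * (g 1 0 * c 0 0 + g 1 1 * c 1 0) * g 1 0) * this
    have h4 : ‖(g * c) 0 0 / (g * c) 1 0 - g 0 0 / g 1 0‖ ≤ η / 2 := by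
      rw [e3, norm_div, norm_neg, norm_mul, div_le_iff₀ (by positivity)]
      have h5 : a * (a / (2 * B)) ≤ ‖g 1 0‖ * ‖(g * c) 1 0‖ := by gcongr
      have h6 : ‖c 1 0‖ ≤ η / 2 * (a * (a / (2 * B))) := by
        have : η / 2 * (a * (a / (2 * B))) = a ^ 2 * η / (4 * B) := by field_simp; ring
        rw [this, le_div_iff₀ (by positivity)]
        linarith
      calc ‖c 1 0‖ ≤ η / 2 * (a * (a / (2 * B))) := h6
        _ ≤ η / 2 * (‖g 1 0‖ * ‖(g * c) 1 0‖) := by gcongr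
    have e4 : (g * c) 0 0 / (g * c) 1 0 - y =
        ((g * c) 0 0 / (g * c) 1 0 - g 0 0 / g 1 0) + (g 0 0 / g 1 0 - y) := by ring
    rw [e4]
    refine lt_of_le_of_lt (norm_add_le _ _) ?_
    linarith

open MeasureTheory in
/-- The complement of the set of good points is a null set. -/
lemma null_compl (Γ : Subgroup G) {C : Set G} (hC : IsCompact C)
    (hcoc : ∀ g : G, ∃ γ ∈ Γ, γ * g ∈ C) {x y : ℂ} (hd : ∀ ρ : ℝ, 0 < ρ → Dense (Og Γ x y ρ))
    (hxy : x ≠ y) {ρ : ℝ} (hρ : 0 < ρ) :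
    ∀ᵐ p ∂(volume : Measure ℂ), p ∈ Og Γ x y ρ := by
  have hmeas : MeasurableSet (Og Γ x y ρ)ᶜ := (isOpen_Og Γ x y ρ).measurableSet.compl
  filter_upwards [Besicovitch.ae_tendsto_measure_inter_div_of_measurableSet
    (volume : Measure ℂ) hmeas] with p₀ hp₀
  by_contra hpF
  have hpF' : p₀ ∈ (Og Γ x y ρ)ᶜ := hpF
  rw [Set.indicator_of_mem hpF', Pi.one_apply] at hp₀
  -- the frames
  have ht : ∀ n : ℕ, 0 < 1 / ((n : ℝ) + 1) := fun n => by positivity
  set t : ℕ → ℝ := fun n => 1 / ((n : ℝ) + 1) with htdef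
  choose γ₂ h₂ h₂C using fun n => hcoc (fr p₀ (t n) (ht n))
  obtain ⟨W, hW⟩ : ∃ W : Ultrafilter ℕ, (W : Filter ℕ) ≤ atTop := ⟨Ultrafilter.of atTop,
    Ultrafilter.of_le _⟩
  obtain ⟨c, -, hc⟩ := hC.ultrafilter_le_nhds' (W.map fun n => γ₂ n * fr p₀ (t n) (ht n))
    (by
      rw [Ultrafilter.mem_map]
      exact Filter.univ_mem' h₂C)
  have hc' : Tendsto (fun n => γ₂ n * fr p₀ (t n) (ht n)) W (𝓝 c) := hc
  have htR : Tendsto t W (𝓝 0) :=
    (tendsto_one_div_add_atTop_nhds_zero_nat (𝕜 := ℝ)).mono_left hW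
  have htW : Tendsto t W (𝓝[>] 0) := by
    rw [tendsto_nhdsWithin_iff]
    exact ⟨htR, Filter.Eventually.of_forall fun n => ht n⟩
  obtain ⟨g, hg, w₀, hw₀, hne, hdn, hx, hy⟩ := frame_hit Γ hd hxy hρ c
  set h : G := g * c with hh
  set m : ℕ → G := fun n => g * (γ₂ n * fr p₀ (t n) (ht n)) with hm
  have hmt : Tendsto m W (𝓝 h) := hc'.const_mul g
  have hme : ∀ i j, Tendsto (fun n => m n i j) W (𝓝 (h i j)) := tendsto_iff.1 hmt
  -- the open conditions
  have ev0 : ∀ᶠ z : G × ℂ in 𝓝 (h, w₀), z.1 1 0 * z.2 + z.1 1 1 ≠ 0 ∧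
      ‖mob z.1 z.2 - x‖ < ρ := by
    have k10 : Continuous fun z : G × ℂ => z.1 1 0 := (continuous_entry 1 0).comp continuous_fst
    have k11 : Continuous fun z : G × ℂ => z.1 1 1 := (continuous_entry 1 1).comp continuous_fst
    have k00 : Continuous fun z : G × ℂ => z.1 0 0 := (continuous_entry 0 0).comp continuous_fst
    have k01 : Continuous fun z : G × ℂ => z.1 0 1 := (continuous_entry 0 1).comp continuous_fst
    have kd : Continuous fun z : G × ℂ => z.1 1 0 * z.2 + z.1 1 1 :=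
      (k10.mul continuous_snd).add k11
    have kn : Continuous fun z : G × ℂ => z.1 0 0 * z.2 + z.1 0 1 :=
      (k00.mul continuous_snd).add k01
    have c1 : ContinuousAt (fun z : G × ℂ => z.1 1 0 * z.2 + z.1 1 1) (h, w₀) := kd.continuousAt
    have c2 : ContinuousAt (fun z : G × ℂ => ‖mob z.1 z.2 - x‖) (h, w₀) := by
      unfold mob
      exact ((ContinuousAt.div kn.continuousAt c1 hdn).sub continuousAt_const).norm
    exact (c1.eventually (isOpen_ne.mem_nhds hdn)).and (c2.eventually (gt_mem_nhds hx))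
  rw [nhds_prod_eq, eventually_prod_iff] at ev0
  obtain ⟨pa, hpa, pb, hpb, hab⟩ := ev0
  have ev1 : ∀ᶠ w in 𝓝 w₀, pb w ∧ ‖w‖ < 1 :=
    hpb.and ((continuous_norm.continuousAt).eventually (gt_mem_nhds hw₀))
  obtain ⟨δ, hδ, hδb⟩ := Metric.eventually_nhds_iff_ball.1 ev1
  have ev2 : ∀ᶠ n in (W : Filter ℕ), pa (m n) := hmt.eventually hpa
  have ev3 : ∀ᶠ n in (W : Filter ℕ), ‖m n 0 0 / m n 1 0 - y‖ < ρ := by
    have := (((hme 0 0).div (hme 1 0) hne).sub_const y).norm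
    exact this.eventually (gt_mem_nhds hy)
  have ev4 : ∀ᶠ n in (W : Filter ℕ), ρ⁻¹ * Real.sqrt (t n) < ‖m n 1 0‖ := by
    have k1 : Tendsto (fun n => ρ⁻¹ * Real.sqrt (t n)) W (𝓝 (ρ⁻¹ * Real.sqrt 0)) :=
      ((Real.continuous_sqrt.tendsto 0).comp htR).const_mul _
    rw [Real.sqrt_zero, mul_zero] at k1
    exact k1.eventually_lt (hme 1 0).norm (norm_pos_iff.2 hne)
  -- a ball of good points
  have ball_sub : ∀ᶠ n in (W : Filter ℕ),
      Metric.ball (p₀ + (t n : ℂ) * w₀) (t n * δ) ⊆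
        Metric.closedBall p₀ (t n) ∩ Og Γ x y ρ := by
    filter_upwards [ev2, ev3, ev4] with n n2 n3 n4
    intro q hq
    have ht0 : 0 < t n := ht n
    have htn : ((t n : ℝ) : ℂ) ≠ 0 := Complex.ofReal_ne_zero.2 ht0.ne'
    set w : ℂ := (q - p₀) / (t n : ℂ) with hw
    have hqw : q = p₀ + (t n : ℂ) * w := by
      rw [hw, mul_div_cancel₀ _ htn]
      ring
    have hwb : w ∈ Metric.ball w₀ δ := by
      rw [mem_ball_iff_norm] at hq ⊢
      have e : q - (p₀ + (t n : ℂ) * w₀) = (t n : ℂ) * (w - w₀) := by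
        rw [hqw]
        ring
      rw [e, norm_mul, Complex.norm_real, Real.norm_of_nonneg ht0.le] at hq
      exact lt_of_mul_lt_mul_left hq ht0.le
    obtain ⟨w1, w2⟩ := hδb w hwb
    obtain ⟨r1, r2⟩ := hab n2 w1
    constructor
    · rw [mem_closedBall_iff_norm, hqw, add_sub_cancel_left, norm_mul, Complex.norm_real,
        Real.norm_of_nonneg ht0.le]
      calc t n * ‖w‖ ≤ t n * 1 := by gcongr
        _ = t n := mul_one _
    · have hs0 : ((Real.sqrt (t n) : ℝ) : ℂ) ≠ 0 := by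
        exact_mod_cast (Real.sqrt_pos.2 ht0).ne'
      have hs2 : ((t n : ℝ) : ℂ) = ((Real.sqrt (t n) : ℝ) : ℂ) * ((Real.sqrt (t n) : ℝ) : ℂ) := by
        rw [← Complex.ofReal_mul, Real.mul_self_sqrt ht0.le]
      have eg : g * γ₂ n = m n * (fr p₀ (t n) (ht n))⁻¹ := by
        rw [hm]
        group
      have g00 : (g * γ₂ n) 0 0 = m n 0 0 / ((Real.sqrt (t n) : ℝ) : ℂ) := by
        rw [eg, mul_00, inv_00, inv_10, fr_11, fr_10]
        field_simp
        ring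
      have g10 : (g * γ₂ n) 1 0 = m n 1 0 / ((Real.sqrt (t n) : ℝ) : ℂ) := by
        rw [eg, mul_10, inv_00, inv_10, fr_11, fr_10]
        field_simp
        ring
      have g01 : (g * γ₂ n) 0 1 = ((Real.sqrt (t n) : ℝ) : ℂ) * m n 0 1 -
          m n 0 0 * p₀ / ((Real.sqrt (t n) : ℝ) : ℂ) := by
        rw [eg, mul_01, inv_01, inv_11, fr_01, fr_00]
        ring
      have g11 : (g * γ₂ n) 1 1 = ((Real.sqrt (t n) : ℝ) : ℂ) * m n 1 1 -
          m n 1 0 * p₀ / ((Real.sqrt (t n) : ℝ) : ℂ) := by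
        rw [eg, mul_11, inv_01, inv_11, fr_01, fr_00]
        ring
      have eden : (g * γ₂ n) 1 0 * q + (g * γ₂ n) 1 1 =
          ((Real.sqrt (t n) : ℝ) : ℂ) * (m n 1 0 * w + m n 1 1) := by
        rw [g10, g11, hqw, hs2]
        field_simp
        ring
      have enum : (g * γ₂ n) 0 0 * q + (g * γ₂ n) 0 1 =
          ((Real.sqrt (t n) : ℝ) : ℂ) * (m n 0 0 * w + m n 0 1) := by
        rw [g00, g01, hqw, hs2]
        field_simp
        ring
      refine ⟨g * γ₂ n, Γ.mul_mem hg (h₂ n), ?_, ?_, ?_, ?_⟩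
      · rw [eden]
        exact mul_ne_zero hs0 r1
      · rw [g10, norm_div, Complex.norm_real, Real.norm_of_nonneg (Real.sqrt_nonneg _),
          lt_div_iff₀ (Real.sqrt_pos.2 ht0)]
        exact n4
      · have : mob (g * γ₂ n) q = mob (m n) w := by
          unfold mob
          rw [eden, enum, mul_div_mul_left _ _ hs0]
        rw [this]
        exact r2
      · rw [g00, g10, div_div_div_cancel_right₀ hs0]
        exact n3
  -- the density
  have ev5 : ∀ᶠ n in (W : Filter ℕ),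
      volume ((Og Γ x y ρ)ᶜ ∩ Metric.closedBall p₀ (t n)) / volume (Metric.closedBall p₀ (t n))
        + ENNReal.ofReal δ ^ 2 ≤ 1 := by
    filter_upwards [ball_sub] with n hn
    have ht0 : 0 < t n := ht n
    have hb : volume (Metric.ball (p₀ + (t n : ℂ) * w₀) (t n * δ)) =
        ENNReal.ofReal δ ^ 2 * volume (Metric.closedBall p₀ (t n)) := by
      rw [Complex.volume_ball, Complex.volume_closedBall, ENNReal.ofReal_mul ht0.le, mul_pow]
      ring
    have hA0 : volume (Metric.closedBall p₀ (t n)) ≠ 0 :=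
      (Metric.measure_closedBall_pos volume p₀ ht0).ne'
    have hAt : volume (Metric.closedBall p₀ (t n)) ≠ ⊤ := measure_closedBall_lt_top.ne
    have hdis : Disjoint ((Og Γ x y ρ)ᶜ ∩ Metric.closedBall p₀ (t n))
        (Metric.ball (p₀ + (t n : ℂ) * w₀) (t n * δ)) := by
      rw [Set.disjoint_left]
      intro q hq1 hq2
      exact hq1.1 (hn hq2).2
    have hu : volume ((Og Γ x y ρ)ᶜ ∩ Metric.closedBall p₀ (t n)) +
        volume (Metric.ball (p₀ + (t n : ℂ) * w₀) (t n * δ)) ≤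
        volume (Metric.closedBall p₀ (t n)) := by
      rw [← measure_union hdis measurableSet_ball]
      refine measure_mono ?_
      intro q hq
      rcases hq with hq | hq
      · exact hq.2
      · exact (hn hq).1
    rw [hb] at hu
    have h3 : ENNReal.ofReal δ ^ 2 = ENNReal.ofReal δ ^ 2 *
        volume (Metric.closedBall p₀ (t n)) / volume (Metric.closedBall p₀ (t n)) := by
      rw [mul_div_assoc, ENNReal.div_self hA0 hAt, mul_one]
    rw [h3, ← ENNReal.add_div]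
    refine (ENNReal.div_le_div_right hu _).trans ?_
    rw [ENNReal.div_self hA0 hAt]
  have hlim := ((hp₀.comp htW).add_const (ENNReal.ofReal δ ^ 2))
  have h1 : 1 + ENNReal.ofReal δ ^ 2 ≤ 1 := le_of_tendsto hlim ev5
  have h2 : 0 < ENNReal.ofReal δ ^ 2 := by
    have : 0 < ENNReal.ofReal δ := ENNReal.ofReal_pos.2 hδ
    positivity
  exact absurd h1 (not_le.2 (ENNReal.lt_add_right ENNReal.one_ne_top h2.ne'))

open MeasureTheory in
/-- Almost every point is generic. -/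
theorem gen_ae (Γ : Subgroup G) [DiscreteTopology Γ] [CompactSpace (G ⧸ Γ)] :
    ∀ᵐ p ∂(MeasureTheory.volume : MeasureTheory.Measure ℂ), Gen Γ p := by
  obtain ⟨C, hC, hcoc⟩ := coc_of_compact Γ
  obtain ⟨U, hU, h1U, hΓU⟩ := disc_of_discrete Γ
  obtain ⟨Q, hQc, hQd⟩ := TopologicalSpace.exists_countable_dense ℂ
  have : Countable Q := hQc.to_subtype
  have key : ∀ᵐ p ∂(volume : Measure ℂ), ∀ (q : Q) (q' : Q) (n : ℕ), (q : ℂ) ≠ q' →
      p ∈ Og Γ q q' (1 / ((n : ℝ) + 1)) := by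
    rw [ae_all_iff]
    intro q
    rw [ae_all_iff]
    intro q'
    rw [ae_all_iff]
    intro n
    by_cases h : (q : ℂ) = q'
    · exact Filter.Eventually.of_forall fun p hp => absurd h hp
    · filter_upwards [null_compl Γ hC hcoc
        (fun ρ hρ => dense_Og Γ hC hcoc hU h1U hΓU h hρ) h
        (show (0 : ℝ) < 1 / ((n : ℝ) + 1) by positivity)] with p hp _
      exact hp
  filter_upwards [key] with p hp
  intro x y hxy ρ hρ
  set η : ℝ := min (ρ / 2) (‖x - y‖ / 4) with hη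
  have hxy0 : 0 < ‖x - y‖ := norm_pos_iff.2 (sub_ne_zero.2 hxy)
  have hη0 : 0 < η := lt_min (by linarith) (by linarith)
  obtain ⟨q, hq, hqx⟩ := hQd.exists_dist_lt x hη0
  obtain ⟨q', hq', hqy⟩ := hQd.exists_dist_lt y hη0
  obtain ⟨n, hn⟩ := exists_nat_one_div_lt (show 0 < ρ / 2 by linarith)
  rw [dist_eq_norm] at hqx hqy
  have hη1 : η ≤ ρ / 2 := min_le_left _ _
  have hη2 : η ≤ ‖x - y‖ / 4 := min_le_right _ _
  have hqq : q ≠ q' := by
    intro h
    subst h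
    have e : x - y = (x - q) - (y - q) := by ring
    have h1 : ‖x - y‖ ≤ ‖x - q‖ + ‖y - q‖ := by
      rw [e]
      exact norm_sub_le _ _
    linarith
  obtain ⟨g, hg, g1, g2, g3, g4⟩ := hp ⟨q, hq⟩ ⟨q', hq'⟩ n hqq
  have hn0 : (0 : ℝ) < 1 / ((n : ℝ) + 1) := by positivity
  refine ⟨g, hg, g1, ?_, ?_, ?_⟩
  · refine lt_of_le_of_lt ?_ g2
    exact inv_anti₀ hn0 (by linarith)
  · have e : mob g p - x = (mob g p - q) - (x - q) := by ring
    rw [e]
    refine lt_of_le_of_lt (norm_sub_le _ _) ?_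
    have g3' : ‖mob g p - q‖ < 1 / ((n : ℝ) + 1) := g3
    linarith
  · have e : g 0 0 / g 1 0 - y = (g 0 0 / g 1 0 - q') - (y - q') := by ring
    rw [e]
    refine lt_of_le_of_lt (norm_sub_le _ _) ?_
    have g4' : ‖g 0 0 / g 1 0 - q'‖ < 1 / ((n : ℝ) + 1) := g4
    linarith

end Pool.Agent.H81.FG
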