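import Pool.Agent.H81.TG.Chord
import Pool.Agent.H20.WC.ActCont

/-!
Four points of a circle, and two linked continua outside of a disc of the Riemann sphere
(problem MP_90715c_gt, FatAtGeneric).
-/

open Matrix Set Filter Topology

namespace Pool.Agent.H81.FG

open Pool.Agent.H90.WC Pool.Agent.H81.TG

/-- Three different points of the unit circle are not on a line. -/
lemma sd_ne {a b c : ℂ} (ha : ‖a‖ = 1) (hb : ‖b‖ = 1) (hc : ‖c‖ = 1) (hab : a ≠ b) (hac : a ≠ c)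
    (hbc : b ≠ c) : sd a b c ≠ 0 := by
  intro h
  have h1 := nsq ha
  have h2 := nsq hb
  have h3 := nsq hc
  unfold sd at h
  set n : ℝ := (b.re - a.re) ^ 2 + (b.im - a.im) ^ 2 with hn
  set s : ℝ := (b.re - a.re) * (c.re - a.re) + (b.im - a.im) * (c.im - a.im) with hs
  have hn0 : n ≠ 0 := by
    intro h0
    apply hab
    have e1 : b.re - a.re = 0 := by nlinarith [sq_nonneg (b.re - a.re), sq_nonneg (b.im - a.im)]
    have e2 : b.im - a.im = 0 := by nlinarith [sq_nonneg (b.re - a.re), sq_nonneg (b.im - a.im)]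
    exact Complex.ext (by linarith) (by linarith)
  have k1 : n * (c.re - a.re) = s * (b.re - a.re) := by
    rw [hn, hs]; linear_combination (-(b.im - a.im)) * h
  have k2 : n * (c.im - a.im) = s * (b.im - a.im) := by
    rw [hn, hs]; linear_combination (b.re - a.re) * h
  -- `s (s - n) = 0`
  have q1 : 2 * (a.re * (b.re - a.re) + a.im * (b.im - a.im)) = -n := by
    rw [hn]; linear_combination h2 - h1
  have q2 : (c.re - a.re) ^ 2 + (c.im - a.im) ^ 2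
      = -(2 * (a.re * (c.re - a.re) + a.im * (c.im - a.im))) := by
    linear_combination h3 - h1
  have q3 : n * (s * (s - n)) = 0 := by
    have e1 : n ^ 2 * ((c.re - a.re) ^ 2 + (c.im - a.im) ^ 2) = s ^ 2 * n := by
      have : n ^ 2 * ((c.re - a.re) ^ 2 + (c.im - a.im) ^ 2)
          = (n * (c.re - a.re)) ^ 2 + (n * (c.im - a.im)) ^ 2 := by ring
      rw [this, k1, k2]
      have : n = (b.re - a.re) ^ 2 + (b.im - a.im) ^ 2 := hn
      calc _ = s ^ 2 * ((b.re - a.re) ^ 2 + (b.im - a.im) ^ 2) := by ring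
        _ = _ := by rw [← this]
    have e2 : n ^ 2 * -(2 * (a.re * (c.re - a.re) + a.im * (c.im - a.im))) = n ^ 2 * s := by
      have : n ^ 2 * -(2 * (a.re * (c.re - a.re) + a.im * (c.im - a.im)))
          = -n * (2 * (a.re * (n * (c.re - a.re)) + a.im * (n * (c.im - a.im)))) := by ring
      rw [this, k1, k2]
      calc _ = -n * s * (2 * (a.re * (b.re - a.re) + a.im * (b.im - a.im))) := by ring
        _ = _ := by rw [q1]; ring
    rw [q2] at e1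
    linear_combination e2 - e1
  rcases mul_eq_zero.1 ((mul_eq_zero.1 q3).resolve_left hn0) with h4 | h4
  · apply hac
    rw [h4, zero_mul] at k1 k2
    have l1 := (mul_eq_zero.1 k1).resolve_left hn0
    have l2 := (mul_eq_zero.1 k2).resolve_left hn0
    exact Complex.ext (by linarith) (by linarith)
  · apply hbc
    have h5 : s = n := by linarith
    rw [h5] at k1 k2
    have l1 := mul_left_cancel₀ hn0 k1
    have l2 := mul_left_cancel₀ hn0 k2
    exact Complex.ext (by linarith) (by linarith)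

/-- Of the three pairings of four different points of the unit circle one is crossing. -/
lemma pairing {a b c d : ℂ} (ha : ‖a‖ = 1) (hb : ‖b‖ = 1) (hc : ‖c‖ = 1) (hd : ‖d‖ = 1)
    (hab : a ≠ b) (hac : a ≠ c) (had : a ≠ d) (hbc : b ≠ c) (hbd : b ≠ d) (hcd : c ≠ d) :
    sd a b c * sd a b d < 0 ∨ sd a c b * sd a c d < 0 ∨ sd a d b * sd a d c < 0 := by
  have A := sd_ne ha hb hc hab hac hbc
  have B := sd_ne ha hb hd hab had hbd
  have C := sd_ne ha hc hd hac had hcd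
  have e1 : sd a c b = -sd a b c := by unfold sd; ring
  have e2 : sd a d b = -sd a b d := by unfold sd; ring
  have e3 : sd a d c = -sd a c d := by unfold sd; ring
  rw [e1, e2, e3]
  by_contra hcon
  push Not at hcon
  obtain ⟨h1, h2, h3⟩ := hcon
  have p1 : 0 < sd a b c * sd a b d := lt_of_le_of_ne h1 (Ne.symm (mul_ne_zero A B))
  have p2 : 0 < -sd a b c * sd a c d :=
    lt_of_le_of_ne h2 (Ne.symm (mul_ne_zero (neg_ne_zero.2 A) C))
  have p3 : 0 < -sd a b d * -sd a c d :=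
    lt_of_le_of_ne h3 (Ne.symm (mul_ne_zero (neg_ne_zero.2 B) (neg_ne_zero.2 C)))
  have p4 := mul_pos (mul_pos p1 p2) p3
  have e : sd a b c * sd a b d * (-sd a b c * sd a c d) * (-sd a b d * -sd a c d)
      = -(sd a b c * sd a b d * sd a c d) ^ 2 := by ring
  rw [e] at p4
  have := sq_nonneg (sd a b c * sd a b d * sd a c d)
  linarith

/-- The map `w ↦ x + σ / w`. -/
noncomputable def tau (x : ℂ) {σ : ℝ} (hσ : 0 < σ) : G :=
  ⟨!![x * (-Complex.I / ((Real.sqrt σ : ℝ) : ℂ)), (σ : ℂ) * (-Complex.I / ((Real.sqrt σ : ℝ) : ℂ));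
    -Complex.I / ((Real.sqrt σ : ℝ) : ℂ), 0], by
    have h0 : ((Real.sqrt σ : ℝ) : ℂ) ≠ 0 := by exact_mod_cast (Real.sqrt_pos.2 hσ).ne'
    have h2 : ((Real.sqrt σ : ℝ) : ℂ) * ((Real.sqrt σ : ℝ) : ℂ) = (σ : ℂ) := by
      rw [← Complex.ofReal_mul, Real.mul_self_sqrt hσ.le]
    rw [Matrix.det_fin_two_of, mul_zero, zero_sub, ← h2]
    field_simp
    rw [Complex.I_sq]
    ring⟩

lemma tau_inf (x : ℂ) {σ : ℝ} (hσ : 0 < σ) : act (tau x hσ) OnePoint.infty = (x : OnePoint ℂ) := by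
  have h0 : ((Real.sqrt σ : ℝ) : ℂ) ≠ 0 := by exact_mod_cast (Real.sqrt_pos.2 hσ).ne'
  have h1 : -Complex.I / ((Real.sqrt σ : ℝ) : ℂ) ≠ 0 :=
    div_ne_zero (neg_ne_zero.2 Complex.I_ne_zero) h0
  rw [act_infty]
  have e10 : (tau x hσ) 1 0 = -Complex.I / ((Real.sqrt σ : ℝ) : ℂ) := rfl
  have e00 : (tau x hσ) 0 0 = x * (-Complex.I / ((Real.sqrt σ : ℝ) : ℂ)) := rfl
  rw [e10, e00, if_neg h1, mul_div_assoc, div_self h1, mul_one]

lemma tau_coe (x : ℂ) {σ : ℝ} (hσ : 0 < σ) {w : ℂ} (hw : w ≠ 0) :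
    act (tau x hσ) (w : OnePoint ℂ) = ((x + (σ : ℂ) / w : ℂ) : OnePoint ℂ) := by
  have h0 : ((Real.sqrt σ : ℝ) : ℂ) ≠ 0 := by exact_mod_cast (Real.sqrt_pos.2 hσ).ne'
  have h1 : -Complex.I / ((Real.sqrt σ : ℝ) : ℂ) ≠ 0 :=
    div_ne_zero (neg_ne_zero.2 Complex.I_ne_zero) h0
  have e10 : (tau x hσ) 1 0 = -Complex.I / ((Real.sqrt σ : ℝ) : ℂ) := rfl
  have e00 : (tau x hσ) 0 0 = x * (-Complex.I / ((Real.sqrt σ : ℝ) : ℂ)) := rfl
  have e01 : (tau x hσ) 0 1 = (σ : ℂ) * (-Complex.I / ((Real.sqrt σ : ℝ) : ℂ)) := rfl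
  have e11 : (tau x hσ) 1 1 = 0 := rfl
  rw [act_coe_of_ne (by rw [e10, e11, add_zero]; exact mul_ne_zero h1 hw)]
  congr 1
  unfold mob
  rw [e00, e01, e10, e11, add_zero]
  generalize -Complex.I / ((Real.sqrt σ : ℝ) : ℂ) = k at h1
  field_simp

/-- Two linked continua outside of an open disc of the sphere meet. -/
theorem cross_out {P Q : Set (OnePoint ℂ)} (hP : IsCompact P) (hPc : IsPreconnected P)
    (hQ : IsCompact Q) (hQc : IsPreconnected Q) {x : ℂ} {σ : ℝ} (hσ : 0 < σ)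
    (hP1 : ∀ v : ℂ, (v : OnePoint ℂ) ∈ P → σ ≤ ‖v - x‖)
    (hQ1 : ∀ v : ℂ, (v : OnePoint ℂ) ∈ Q → σ ≤ ‖v - x‖)
    {a b c d : ℂ} (ha : (a : OnePoint ℂ) ∈ P) (hb : (b : OnePoint ℂ) ∈ P)
    (hc : (c : OnePoint ℂ) ∈ Q) (hd : (d : OnePoint ℂ) ∈ Q)
    (na : ‖a - x‖ = σ) (nb : ‖b - x‖ = σ) (nc : ‖c - x‖ = σ) (nd : ‖d - x‖ = σ)
    (hS : sd ((σ : ℂ) / (a - x)) ((σ : ℂ) / (b - x)) ((σ : ℂ) / (c - x))
      * sd ((σ : ℂ) / (a - x)) ((σ : ℂ) / (b - x)) ((σ : ℂ) / (d - x)) < 0) :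
    (P ∩ Q).Nonempty := by
  have hσC : (σ : ℂ) ≠ 0 := by exact_mod_cast hσ.ne'
  have hxP : ∀ {R : Set (OnePoint ℂ)}, (∀ v : ℂ, (v : OnePoint ℂ) ∈ R → σ ≤ ‖v - x‖) →
      OnePoint.infty ∉ {y | act (tau x hσ) y ∈ R} := by
    intro R hR h
    have h' : act (tau x hσ) OnePoint.infty ∈ R := h
    rw [tau_inf] at h'
    have := hR x h'
    rw [sub_self, norm_zero] at this
    linarith
  have hle : ∀ {R : Set (OnePoint ℂ)}, (∀ v : ℂ, (v : OnePoint ℂ) ∈ R → σ ≤ ‖v - x‖) →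
      ∀ w ∈ {w : ℂ | (w : OnePoint ℂ) ∈ {y | act (tau x hσ) y ∈ R}}, ‖w‖ ≤ 1 := by
    intro R hR w hw
    by_cases h0 : w = 0
    · rw [h0, norm_zero]; exact zero_le_one
    · have h' : act (tau x hσ) (w : OnePoint ℂ) ∈ R := hw
      rw [tau_coe x hσ h0] at h'
      have h1 := hR _ h'
      have hw0 : 0 < ‖w‖ := norm_pos_iff.2 h0
      rw [add_sub_cancel_left, norm_div, Complex.norm_real, Real.norm_of_nonneg hσ.le,
        le_div_iff₀ hw0] at h1
      nlinarith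
  have hne : ∀ {v : ℂ}, ‖v - x‖ = σ → v - x ≠ 0 := by
    intro v hv h
    rw [h, norm_zero] at hv
    linarith
  have hmem : ∀ {R : Set (OnePoint ℂ)} {v : ℂ}, (v : OnePoint ℂ) ∈ R → ‖v - x‖ = σ →
      (σ : ℂ) / (v - x) ∈ {w : ℂ | (w : OnePoint ℂ) ∈ {y | act (tau x hσ) y ∈ R}} := by
    intro R v hv hn
    show act (tau x hσ) (((σ : ℂ) / (v - x) : ℂ) : OnePoint ℂ) ∈ R
    rw [tau_coe x hσ (div_ne_zero hσC (hne hn)), div_div_cancel₀ hσC, add_sub_cancel]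
    exact hv
  have hn1 : ∀ {v : ℂ}, ‖v - x‖ = σ → ‖(σ : ℂ) / (v - x)‖ = 1 := by
    intro v hv
    rw [norm_div, Complex.norm_real, Real.norm_of_nonneg hσ.le, hv, div_self hσ.ne']
  obtain ⟨c1, p1⟩ := act_preimage hP hPc (tau x hσ)
  obtain ⟨c2, p2⟩ := finite_part c1 p1 (hxP hP1)
  obtain ⟨c3, p3⟩ := act_preimage hQ hQc (tau x hσ)
  obtain ⟨c4, p4⟩ := finite_part c3 p3 (hxP hQ1)
  obtain ⟨w, hw1, hw2⟩ := cross_disc c2 p2 c4 p4 (hle hP1) (hle hQ1) (hmem ha na) (hmem hb nb)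
    (hmem hc nc) (hmem hd nd) (hn1 na) (hn1 nb) (hn1 nc) (hn1 nd) hS
  exact ⟨act (tau x hσ) (w : OnePoint ℂ), hw1, hw2⟩

end Pool.Agent.H81.FG
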