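import Mathlib

/-!
# MP_90715c_gt, row FG-Count: five points without near pairs and bad triples (union bound)
-/

set_option autoImplicit false

namespace Pool.Agent.H81.FG

/-- If for every `f` at most `α * card X` values of the coordinate `j` satisfy `P`, then at most
the proportion `α` of all `f` satisfies `P`. -/
theorem count_coord {X : Type*} [Fintype X] [Nonempty X] (P : (Fin 5 → X) → Prop)
    [DecidablePred P] (j : Fin 5) (α : ℝ)
    (h : ∀ f : Fin 5 → X, ((Nat.card {y // P (Function.update f j y)} : ℕ) : ℝ) ≤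
      α * (Fintype.card X : ℝ)) :
    (((Finset.univ.filter P).card : ℕ) : ℝ) ≤ α * (Fintype.card (Fin 5 → X) : ℝ) := by
  classical
  have h1 : (Finset.univ.filter P).card = ∑ g : ({i : Fin 5 // i ≠ j} → X),
      (Finset.univ.filter fun y => P ((Equiv.funSplitAt j X).symm (y, g))).card := by
    rw [Finset.card_filter, ← (Equiv.funSplitAt j X).symm.sum_comp, Fintype.sum_prod_type_right]
    simp only [Finset.card_filter]
  have h2 : ∀ g : ({i : Fin 5 // i ≠ j} → X),
      (((Finset.univ.filter fun y => P ((Equiv.funSplitAt j X).symm (y, g))).card : ℕ) : ℝ) ≤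
        α * (Fintype.card X : ℝ) := by
    intro g
    obtain ⟨y0⟩ := ‹Nonempty X›
    have h3 := h ((Equiv.funSplitAt j X).symm (y0, g))
    have e1 : ∀ y, Function.update ((Equiv.funSplitAt j X).symm (y0, g)) j y =
        (Equiv.funSplitAt j X).symm (y, g) := by
      intro y
      funext i
      by_cases hi : i = j
      · subst hi
        simp [Equiv.funSplitAt_symm_apply]
      · simp [Equiv.funSplitAt_symm_apply, hi]
    rw [Nat.card_eq_fintype_card, Fintype.card_subtype] at h3
    simp only [e1] at h3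
    exact h3
  have h3 : Fintype.card (Fin 5 → X) =
      Fintype.card X * Fintype.card ({i : Fin 5 // i ≠ j} → X) := by
    rw [Fintype.card_congr (Equiv.funSplitAt j X), Fintype.card_prod]
  rw [h1, h3]
  push_cast
  calc ∑ g : ({i : Fin 5 // i ≠ j} → X),
        (((Finset.univ.filter fun y => P ((Equiv.funSplitAt j X).symm (y, g))).card : ℕ) : ℝ)
      ≤ ∑ _g : ({i : Fin 5 // i ≠ j} → X), α * (Fintype.card X : ℝ) :=
        Finset.sum_le_sum fun g _ => h2 g
    _ = α * ((Fintype.card X : ℝ) * (Fintype.card ({i : Fin 5 // i ≠ j} → X) : ℝ)) := by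
        rw [Finset.sum_const, Finset.card_univ, nsmul_eq_mul]
        ring

/-- Five points without near pairs and without bad triples. -/
theorem exists_five {X : Type*} [Fintype X] [Nonempty X] (near : X → X → Prop)
    (bad : X → X → X → Prop)
    (hnear : ∀ x, ((Nat.card {y // near x y} : ℕ) : ℝ) ≤ 17 / 250 * (Fintype.card X : ℝ))
    (hbad : ∀ x y, ((Nat.card {z // bad x y z} : ℕ) : ℝ) ≤ 1 / 100 * (Fintype.card X : ℝ)) :
    ∃ f : Fin 5 → X, (∀ i j, i < j → ¬ near (f i) (f j)) ∧
      ∀ i j k, i < j → k ≠ i → k ≠ j → ¬ bad (f i) (f j) (f k) := by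
  classical
  by_contra hcon
  have hall : ∀ f : Fin 5 → X, (∃ i j, i < j ∧ near (f i) (f j)) ∨
      ∃ i j k, i < j ∧ k ≠ i ∧ k ≠ j ∧ bad (f i) (f j) (f k) := by
    intro f
    by_contra h
    push Not at h
    exact hcon ⟨f, fun i j hij => h.1 i j hij, fun i j k h1 h2 h3 => h.2 i j k h1 h2 h3⟩
  set N : ℝ := (Fintype.card (Fin 5 → X) : ℝ) with hN
  have hNpos : 0 < N := by
    rw [hN]
    exact_mod_cast Fintype.card_pos
  set T2 : Finset (Fin 5 × Fin 5) := Finset.univ.filter fun p => p.1 < p.2 with hT2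
  set T3 : Finset (Fin 5 × Fin 5 × Fin 5) :=
    Finset.univ.filter fun p => p.1 < p.2.1 ∧ p.2.2 ≠ p.1 ∧ p.2.2 ≠ p.2.1 with hT3
  have hc2 : T2.card = 10 := by
    rw [hT2]
    decide
  have hc3 : T3.card = 30 := by
    rw [hT3]
    decide
  have b2 : ∀ p ∈ T2, (((Finset.univ.filter fun f : Fin 5 → X =>
      near (f p.1) (f p.2)).card : ℕ) : ℝ) ≤ 17 / 250 * N := by
    intro p hp
    rw [hT2, Finset.mem_filter] at hp
    apply count_coord (fun f : Fin 5 → X => near (f p.1) (f p.2)) p.2
    intro f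
    simp only [Function.update_self, Function.update_of_ne hp.2.ne]
    exact hnear (f p.1)
  have b3 : ∀ p ∈ T3, (((Finset.univ.filter fun f : Fin 5 → X =>
      bad (f p.1) (f p.2.1) (f p.2.2)).card : ℕ) : ℝ) ≤ 1 / 100 * N := by
    intro p hp
    rw [hT3, Finset.mem_filter] at hp
    apply count_coord (fun f : Fin 5 → X => bad (f p.1) (f p.2.1) (f p.2.2)) p.2.2
    intro f
    simp only [Function.update_self, Function.update_of_ne hp.2.2.1.symm,
      Function.update_of_ne hp.2.2.2.symm]
    exact hbad (f p.1) (f p.2.1)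
  have hcov : (Finset.univ : Finset (Fin 5 → X)) ⊆
      (T2.biUnion fun p => Finset.univ.filter fun f : Fin 5 → X => near (f p.1) (f p.2)) ∪
      (T3.biUnion fun p => Finset.univ.filter fun f : Fin 5 → X =>
        bad (f p.1) (f p.2.1) (f p.2.2)) := by
    intro f _
    rw [Finset.mem_union, Finset.mem_biUnion, Finset.mem_biUnion]
    rcases hall f with ⟨i, j, hij, h⟩ | ⟨i, j, k, hij, hi, hj, h⟩
    · left
      exact ⟨(i, j), Finset.mem_filter.mpr ⟨Finset.mem_univ _, hij⟩,
        Finset.mem_filter.mpr ⟨Finset.mem_univ _, h⟩⟩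
    · right
      exact ⟨(i, j, k), Finset.mem_filter.mpr ⟨Finset.mem_univ _, hij, hi, hj⟩,
        Finset.mem_filter.mpr ⟨Finset.mem_univ _, h⟩⟩
  have c1 := (Finset.card_le_card hcov).trans (Finset.card_union_le _ _)
  have c2 : ((T2.biUnion fun p => Finset.univ.filter fun f : Fin 5 → X =>
      near (f p.1) (f p.2)).card : ℝ) ≤ 10 * (17 / 250 * N) := by
    calc ((T2.biUnion fun p => Finset.univ.filter fun f : Fin 5 → X =>
          near (f p.1) (f p.2)).card : ℝ)
        ≤ ((∑ p ∈ T2, (Finset.univ.filter fun f : Fin 5 → X =>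
          near (f p.1) (f p.2)).card : ℕ) : ℝ) := by
          exact_mod_cast Finset.card_biUnion_le
      _ = ∑ p ∈ T2, (((Finset.univ.filter fun f : Fin 5 → X =>
          near (f p.1) (f p.2)).card : ℕ) : ℝ) := by push_cast; rfl
      _ ≤ ∑ _p ∈ T2, 17 / 250 * N := Finset.sum_le_sum b2
      _ = 10 * (17 / 250 * N) := by
          rw [Finset.sum_const, hc2, nsmul_eq_mul]
          norm_num
  have c3 : ((T3.biUnion fun p => Finset.univ.filter fun f : Fin 5 → X =>
      bad (f p.1) (f p.2.1) (f p.2.2)).card : ℝ) ≤ 30 * (1 / 100 * N) := by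
    calc ((T3.biUnion fun p => Finset.univ.filter fun f : Fin 5 → X =>
          bad (f p.1) (f p.2.1) (f p.2.2)).card : ℝ)
        ≤ ((∑ p ∈ T3, (Finset.univ.filter fun f : Fin 5 → X =>
          bad (f p.1) (f p.2.1) (f p.2.2)).card : ℕ) : ℝ) := by
          exact_mod_cast Finset.card_biUnion_le
      _ = ∑ p ∈ T3, (((Finset.univ.filter fun f : Fin 5 → X =>
          bad (f p.1) (f p.2.1) (f p.2.2)).card : ℕ) : ℝ) := by push_cast; rfl
      _ ≤ ∑ _p ∈ T3, 1 / 100 * N := Finset.sum_le_sum b3
      _ = 30 * (1 / 100 * N) := by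
          rw [Finset.sum_const, hc3, nsmul_eq_mul]
          norm_num
  have c4 : N ≤ ((T2.biUnion fun p => Finset.univ.filter fun f : Fin 5 → X =>
      near (f p.1) (f p.2)).card : ℝ) + ((T3.biUnion fun p => Finset.univ.filter
        fun f : Fin 5 → X => bad (f p.1) (f p.2.1) (f p.2.2)).card : ℝ) := by
    rw [hN, ← Finset.card_univ]
    exact_mod_cast c1
  linarith

end Pool.Agent.H81.FG
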