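import Mathlib

/-!
# MP_90715c_gt, project FG: almost dense discs (FG-B)

If the neighbourhoods of `K` of size `s r` in the disc of radius `r` about `p` have area at least
`c r ^ 2` for arbitrarily small `r` and every `s`, then some small disc near `p` is almost filled
by `K`. Otherwise every small square near `p` has one of its `m ^ 2` subsquares far from `K`, and
iteration makes the area of the neighbourhood small.
-/

set_option autoImplicit false

namespace Pool.Agent.H81.FG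

open MeasureTheory Filter Topology

/-- half open squares -/
def denSq (a : ℂ) (L : ℝ) : Set ℂ :=
  {v | (a.re ≤ v.re ∧ v.re < a.re + L) ∧ a.im ≤ v.im ∧ v.im < a.im + L}

/-- neighbourhoods -/
def denNb (K : Set ℂ) (ρ : ℝ) : Set ℂ := {v | ∃ w ∈ K, ‖v - w‖ ≤ ρ}

theorem denSq_volume (a : ℂ) {L : ℝ} (hL : 0 ≤ L) :
    volume (denSq a L) ≤ ENNReal.ofReal (L ^ 2) := by
  have h1 : denSq a L = Complex.measurableEquivRealProd ⁻¹'
      (Set.Ico a.re (a.re + L) ×ˢ Set.Ico a.im (a.im + L)) := by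
    ext v
    simp only [denSq, Set.mem_ofPred_eq, Set.mem_preimage, Set.mem_prod, Set.mem_Ico,
      Complex.measurableEquivRealProd_apply]
  rw [h1, Complex.volume_preserving_equiv_real_prod.measure_preimage
    (measurableSet_Ico.prod measurableSet_Ico).nullMeasurableSet, Measure.volume_eq_prod,
    Measure.prod_prod, Real.volume_Ico, Real.volume_Ico, add_sub_cancel_left, add_sub_cancel_left,
    ← ENNReal.ofReal_mul hL, sq]

theorem norm_le_re_im (z : ℂ) : ‖z‖ ≤ |z.re| + |z.im| := Complex.norm_le_abs_re_add_abs_im z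

/-- the subsquares -/
noncomputable def denSub (a : ℂ) (L : ℝ) (m : ℕ) (x : ℕ × ℕ) : ℂ :=
  ⟨a.re + x.1 * (L / m), a.im + x.2 * (L / m)⟩

theorem denSq_cover (a : ℂ) {L : ℝ} (hL : 0 < L) {m : ℕ} (hm : 0 < m) {v : ℂ}
    (hv : v ∈ denSq a L) : ∃ x ∈ Finset.range m ×ˢ Finset.range m,
      v ∈ denSq (denSub a L m x) (L / m) := by
  have hm' : (0 : ℝ) < m := Nat.cast_pos.2 hm
  have hq : 0 < L / m := div_pos hL hm'
  have key : ∀ y : ℝ, 0 ≤ y → y < L → ⌊y / (L / m)⌋₊ < m ∧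
      (⌊y / (L / m)⌋₊ : ℝ) * (L / m) ≤ y ∧ y < (⌊y / (L / m)⌋₊ : ℝ) * (L / m) + L / m := by
    intro y hy0 hyL
    have h0 : 0 ≤ y / (L / m) := div_nonneg hy0 hq.le
    refine ⟨?_, ?_, ?_⟩
    · rw [Nat.floor_lt h0, div_lt_iff₀ hq]
      calc y < L := hyL
        _ = m * (L / m) := by field_simp
    · have := Nat.floor_le h0
      rwa [le_div_iff₀ hq] at this
    · have := Nat.lt_floor_add_one (y / (L / m))
      rw [div_lt_iff₀ hq] at this
      linarith
  obtain ⟨⟨h1, h2⟩, h3, h4⟩ := hv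
  obtain ⟨k1, k2, k3⟩ := key (v.re - a.re) (by linarith) (by linarith)
  obtain ⟨l1, l2, l3⟩ := key (v.im - a.im) (by linarith) (by linarith)
  refine ⟨(⌊(v.re - a.re) / (L / m)⌋₊, ⌊(v.im - a.im) / (L / m)⌋₊),
    Finset.mem_product.2 ⟨Finset.mem_range.2 k1, Finset.mem_range.2 l1⟩, ⟨?_, ?_⟩, ?_, ?_⟩
  · show a.re + (⌊(v.re - a.re) / (L / m)⌋₊ : ℝ) * (L / m) ≤ v.re
    linarith
  · show v.re < a.re + (⌊(v.re - a.re) / (L / m)⌋₊ : ℝ) * (L / m) + L / m
    linarith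
  · show a.im + (⌊(v.im - a.im) / (L / m)⌋₊ : ℝ) * (L / m) ≤ v.im
    linarith
  · show v.im < a.im + (⌊(v.im - a.im) / (L / m)⌋₊ : ℝ) * (L / m) + L / m
    linarith

/-- the iteration -/
theorem den_iter {K : Set ℂ} {p : ℂ} {ε δ : ℝ} {m : ℕ} (hm : 0 < m) (hmε : 16 ≤ ε * m)
    (hP : ∀ (z : ℂ) (t : ℝ), 0 < t → t < δ → ‖z - p‖ < δ →
      ∃ v : ℂ, ‖v - z‖ ≤ t ∧ ∀ w ∈ K, ε * t < ‖w - v‖) :
    ∀ (k : ℕ) (a : ℂ) (L ρ : ℝ), 0 < L → ‖a - p‖ + 2 * L < δ → 0 ≤ ρ →
      8 * ρ * (m : ℝ) ^ k ≤ ε * L →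
      volume (denSq a L ∩ denNb K ρ) ≤
        ENNReal.ofReal ((1 - 1 / (m : ℝ) ^ 2) ^ k * L ^ 2) := by
  have hm' : (0 : ℝ) < m := Nat.cast_pos.2 hm
  have hm1 : (1 : ℝ) ≤ m := by exact_mod_cast hm
  intro k
  induction k with
  | zero =>
    intro a L ρ hL _ _ _
    rw [pow_zero, one_mul]
    exact (measure_mono Set.inter_subset_left).trans (denSq_volume a hL.le)
  | succ k ih =>
    intro a L ρ hL ha hρ hk
    have hq : 0 < L / m := div_pos hL hm'
    -- the free point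
    obtain ⟨v, hv1, hv2⟩ := hP (a + ⟨L / 2, L / 2⟩) (L / 4) (by positivity)
      (by have := norm_nonneg (a - p); linarith) (by
        have h1 : ‖(a + ⟨L / 2, L / 2⟩ : ℂ) - p‖ ≤ ‖a - p‖ + ‖(⟨L / 2, L / 2⟩ : ℂ)‖ := by
          rw [show (a + ⟨L / 2, L / 2⟩ : ℂ) - p = (a - p) + ⟨L / 2, L / 2⟩ by ring]
          exact norm_add_le _ _
        have h2 : ‖(⟨L / 2, L / 2⟩ : ℂ)‖ ≤ |L / 2| + |L / 2| := norm_le_re_im ⟨L / 2, L / 2⟩
        rw [abs_of_pos (by positivity : 0 < L / 2)] at h2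
        linarith)
    have hre : |v.re - (a.re + L / 2)| ≤ L / 4 := by
      have := (Complex.abs_re_le_norm (v - (a + ⟨L / 2, L / 2⟩))).trans hv1
      simpa using this
    have him : |v.im - (a.im + L / 2)| ≤ L / 4 := by
      have := (Complex.abs_im_le_norm (v - (a + ⟨L / 2, L / 2⟩))).trans hv1
      simpa using this
    rw [abs_le] at hre him
    have hv : v ∈ denSq a L := ⟨⟨by linarith, by linarith⟩, by linarith, by linarith⟩
    obtain ⟨x0, hx0, hvx⟩ := denSq_cover a hL hm hv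
    -- the free subsquare
    have hfree : denSq (denSub a L m x0) (L / m) ∩ denNb K ρ = ∅ := by
      rw [Set.eq_empty_iff_forall_notMem]
      rintro u ⟨hu, w, hw, huw⟩
      have h1 := hv2 w hw
      have h2 : ‖w - v‖ ≤ ‖u - w‖ + ‖u - v‖ := by
        rw [show w - v = (u - v) - (u - w) by ring]
        calc ‖(u - v) - (u - w)‖ ≤ ‖u - v‖ + ‖u - w‖ := norm_sub_le _ _
          _ = _ := add_comm _ _
      have h3 : ‖u - v‖ ≤ L / m + L / m := by
        refine (norm_le_re_im _).trans (add_le_add ?_ ?_)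
        · rw [Complex.sub_re, abs_le]
          exact ⟨by linarith [hu.1.1, hvx.1.2], by linarith [hu.1.2, hvx.1.1]⟩
        · rw [Complex.sub_im, abs_le]
          exact ⟨by linarith [hu.2.1, hvx.2.2], by linarith [hu.2.2, hvx.2.1]⟩
      have h4 : 16 * (L / m) ≤ ε * L := by
        rw [← mul_div_assoc, div_le_iff₀ hm']
        nlinarith
      have h5 : 8 * ρ ≤ ε * L := by
        refine le_trans ?_ hk
        have : (1 : ℝ) ≤ (m : ℝ) ^ (k + 1) := one_le_pow₀ hm1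
        nlinarith
      linarith
    -- the subsquares
    have hsub : ∀ x ∈ Finset.range m ×ˢ Finset.range m,
        volume (denSq (denSub a L m x) (L / m) ∩ denNb K ρ) ≤
          ENNReal.ofReal ((1 - 1 / (m : ℝ) ^ 2) ^ k * (L / m) ^ 2) := by
      intro x hx
      have hx1 : (x.1 : ℝ) + 1 ≤ m := by
        exact_mod_cast Finset.mem_range.1 (Finset.mem_product.1 hx).1
      have hx2 : (x.2 : ℝ) + 1 ≤ m := by
        exact_mod_cast Finset.mem_range.1 (Finset.mem_product.1 hx).2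
      refine ih _ _ ρ hq ?_ hρ ?_
      · have h1 : ‖denSub a L m x - p‖ ≤ ‖a - p‖ + ‖denSub a L m x - a‖ := by
          rw [show denSub a L m x - p = (a - p) + (denSub a L m x - a) by ring]
          exact norm_add_le _ _
        have h2 : ‖denSub a L m x - a‖ ≤ x.1 * (L / m) + x.2 * (L / m) := by
          refine (norm_le_re_im _).trans (le_of_eq ?_)
          have e1 : (denSub a L m x - a).re = x.1 * (L / m) := by
            simp [denSub]
          have e2 : (denSub a L m x - a).im = x.2 * (L / m) := by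
            simp [denSub]
          rw [e1, e2, abs_of_nonneg (by positivity), abs_of_nonneg (by positivity)]
        have h3 : (x.1 : ℝ) * (L / m) + L / m ≤ L := by
          calc (x.1 : ℝ) * (L / m) + L / m = (x.1 + 1) * (L / m) := by ring
            _ ≤ m * (L / m) := mul_le_mul_of_nonneg_right hx1 hq.le
            _ = L := by field_simp
        have h4 : (x.2 : ℝ) * (L / m) + L / m ≤ L := by
          calc (x.2 : ℝ) * (L / m) + L / m = (x.2 + 1) * (L / m) := by ring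
            _ ≤ m * (L / m) := mul_le_mul_of_nonneg_right hx2 hq.le
            _ = L := by field_simp
        linarith
      · rw [← mul_div_assoc, le_div_iff₀ hm']
        calc 8 * ρ * (m : ℝ) ^ k * m = 8 * ρ * (m : ℝ) ^ (k + 1) := by ring
          _ ≤ ε * L := hk
    have hcov : denSq a L ∩ denNb K ρ ⊆ ⋃ x ∈ (Finset.range m ×ˢ Finset.range m).erase x0,
        denSq (denSub a L m x) (L / m) ∩ denNb K ρ := by
      rintro u ⟨hu1, hu2⟩
      obtain ⟨x, hx, hux⟩ := denSq_cover a hL hm hu1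
      have hne : x ≠ x0 := by
        rintro rfl
        have : u ∈ denSq (denSub a L m x) (L / m) ∩ denNb K ρ := ⟨hux, hu2⟩
        rw [hfree] at this
        exact this
      exact Set.mem_biUnion (Finset.mem_coe.2 (Finset.mem_erase.2 ⟨hne, hx⟩)) ⟨hux, hu2⟩
    have hcard : ((Finset.range m ×ˢ Finset.range m).erase x0).card = m * m - 1 := by
      rw [Finset.card_erase_of_mem hx0, Finset.card_product, Finset.card_range]
    have hmm : 1 ≤ m * m := Nat.mul_pos hm hm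
    have hq1 : 0 ≤ 1 - 1 / (m : ℝ) ^ 2 := by
      have : 1 / (m : ℝ) ^ 2 ≤ 1 := by
        rw [div_le_one (by positivity)]
        nlinarith
      linarith
    calc volume (denSq a L ∩ denNb K ρ)
        ≤ volume (⋃ x ∈ (Finset.range m ×ˢ Finset.range m).erase x0,
            denSq (denSub a L m x) (L / m) ∩ denNb K ρ) := measure_mono hcov
      _ ≤ ∑ x ∈ (Finset.range m ×ˢ Finset.range m).erase x0,
            volume (denSq (denSub a L m x) (L / m) ∩ denNb K ρ) :=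
          measure_biUnion_finset_le _ _
      _ ≤ ((Finset.range m ×ˢ Finset.range m).erase x0).card •
            ENNReal.ofReal ((1 - 1 / (m : ℝ) ^ 2) ^ k * (L / m) ^ 2) :=
          Finset.sum_le_card_nsmul _ _ _ fun x hx => hsub x (Finset.mem_of_mem_erase hx)
      _ = ENNReal.ofReal ((1 - 1 / (m : ℝ) ^ 2) ^ (k + 1) * L ^ 2) := by
          rw [hcard, nsmul_eq_mul, ← ENNReal.ofReal_natCast, ← ENNReal.ofReal_mul (by positivity)]
          congr 1
          have hm0 : (m : ℝ) ≠ 0 := hm'.ne'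
          have hx : ((m : ℝ) * m - 1) * ((L / m) ^ 2) = (1 - 1 / (m : ℝ) ^ 2) * L ^ 2 := by
            field_simp
          rw [Nat.cast_sub hmm]
          push_cast
          calc ((m : ℝ) * m - 1) * ((1 - 1 / (m : ℝ) ^ 2) ^ k * (L / m) ^ 2)
              = (1 - 1 / (m : ℝ) ^ 2) ^ k * (((m : ℝ) * m - 1) * ((L / m) ^ 2)) := by ring
            _ = (1 - 1 / (m : ℝ) ^ 2) ^ k * ((1 - 1 / (m : ℝ) ^ 2) * L ^ 2) := by rw [hx]
            _ = (1 - 1 / (m : ℝ) ^ 2) ^ (k + 1) * L ^ 2 := by ring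

/-- FG-B: almost dense discs -/
theorem dense_discs {K : Set ℂ} (hK : IsClosed K) {p : ℂ} {c : ℝ} (hc : 0 < c)
    (hA : ∀ s > (0 : ℝ), ∃ᶠ r in 𝓝[>] (0 : ℝ), ENNReal.ofReal (c * r ^ 2) <
      MeasureTheory.volume {v : ℂ | ‖v - p‖ ≤ r ∧ ∃ w ∈ K, ‖v - w‖ ≤ s * r})
    {ε δ : ℝ} (hε : 0 < ε) (hδ : 0 < δ) :
    ∃ (z : ℂ) (t : ℝ), 0 < t ∧ t < δ ∧ ‖z - p‖ < δ ∧
      ∀ v : ℂ, ‖v - z‖ ≤ t → ∃ w ∈ K, ‖w - v‖ ≤ ε * t := by
  by_contra hcon
  have hP : ∀ (z : ℂ) (t : ℝ), 0 < t → t < δ → ‖z - p‖ < δ →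
      ∃ v : ℂ, ‖v - z‖ ≤ t ∧ ∀ w ∈ K, ε * t < ‖w - v‖ := by
    intro z t h1 h2 h3
    by_contra h
    push Not at h
    exact hcon ⟨z, t, h1, h2, h3, h⟩
  obtain ⟨m, hm⟩ := exists_nat_gt (max 1 (16 / ε))
  have hm1 : (1 : ℝ) < m := lt_of_le_of_lt (le_max_left _ _) hm
  have hm0 : 0 < m := by
    have : (0 : ℝ) < m := by linarith
    exact_mod_cast this
  have hmε : 16 ≤ ε * m := by
    have h := lt_of_le_of_lt (le_max_right _ _) hm
    rw [div_lt_iff₀ hε] at h
    linarith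
  have hm2 : (1 : ℝ) < (m : ℝ) ^ 2 := by nlinarith
  have hq0 : 0 ≤ 1 - 1 / (m : ℝ) ^ 2 := by
    have : 1 / (m : ℝ) ^ 2 ≤ 1 := by
      rw [div_le_one (by positivity)]
      exact hm2.le
    linarith
  have hq1 : 1 - 1 / (m : ℝ) ^ 2 < 1 := by
    have : 0 < 1 / (m : ℝ) ^ 2 := by positivity
    linarith
  obtain ⟨k, hk⟩ := exists_pow_lt_of_lt_one (show (0 : ℝ) < c / 9 by positivity) hq1
  have hmk : (0 : ℝ) < (m : ℝ) ^ k := by positivity
  have hs : 0 < ε / (4 * (m : ℝ) ^ k) := by positivity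
  have hev : ∀ᶠ r in 𝓝[>] (0 : ℝ), 0 < r ∧ r < δ / 8 := by
    refine (eventually_mem_nhdsWithin).and ?_
    exact nhdsWithin_le_nhds (Iio_mem_nhds (by positivity))
  obtain ⟨r, hr, hr0, hrδ⟩ := ((hA _ hs).and_eventually hev).exists
  have hsub : {v : ℂ | ‖v - p‖ ≤ r ∧ ∃ w ∈ K, ‖v - w‖ ≤ ε / (4 * (m : ℝ) ^ k) * r} ⊆
      denSq (p - ⟨r, r⟩) (3 * r) ∩ denNb K (ε / (4 * (m : ℝ) ^ k) * r) := by
    rintro v ⟨h1, h2⟩
    refine ⟨?_, h2⟩
    have h3 := (Complex.abs_re_le_norm (v - p)).trans h1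
    have h4 := (Complex.abs_im_le_norm (v - p)).trans h1
    rw [Complex.sub_re, abs_le] at h3
    rw [Complex.sub_im, abs_le] at h4
    refine ⟨⟨?_, ?_⟩, ?_, ?_⟩
    · rw [Complex.sub_re]
      show p.re - r ≤ v.re
      linarith
    · rw [Complex.sub_re]
      show v.re < p.re - r + 3 * r
      linarith
    · rw [Complex.sub_im]
      show p.im - r ≤ v.im
      linarith
    · rw [Complex.sub_im]
      show v.im < p.im - r + 3 * r
      linarith
  have hn : ‖(p - ⟨r, r⟩ : ℂ) - p‖ ≤ r + r := by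
    rw [show (p - ⟨r, r⟩ : ℂ) - p = -⟨r, r⟩ by ring, norm_neg]
    have h2 : ‖(⟨r, r⟩ : ℂ)‖ ≤ |r| + |r| := norm_le_re_im ⟨r, r⟩
    rwa [abs_of_pos hr0] at h2
  have h1 := den_iter hm0 hmε hP k (p - ⟨r, r⟩) (3 * r) (ε / (4 * (m : ℝ) ^ k) * r)
    (by positivity) (by linarith) (by positivity) (by
      have : 8 * (ε / (4 * (m : ℝ) ^ k) * r) * (m : ℝ) ^ k = 2 * (ε * r) := by
        field_simp
        ring
      rw [this]
      nlinarith [mul_pos hε hr0])
  have h2 : ENNReal.ofReal ((1 - 1 / (m : ℝ) ^ 2) ^ k * (3 * r) ^ 2) ≤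
      ENNReal.ofReal (c * r ^ 2) := by
    apply ENNReal.ofReal_le_ofReal
    have : (1 - 1 / (m : ℝ) ^ 2) ^ k * (3 * r) ^ 2 = (1 - 1 / (m : ℝ) ^ 2) ^ k * 9 * r ^ 2 := by
      ring
    rw [this]
    apply mul_le_mul_of_nonneg_right _ (by positivity)
    linarith
  exact absurd (hr.trans_le ((measure_mono hsub).trans (h1.trans h2))) (lt_irrefl _)

end Pool.Agent.H81.FG
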