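import Pool.Agent.H81.FG.Circ
import Pool.Agent.H13.WC.Cut

/-!
The complete graph on five vertices cannot be drawn on the sphere with discs as vertices and
continua as edges (problem MP_90715c_gt, FatAtGeneric).
-/

open Matrix Set Filter Topology

namespace Pool.Agent.H81.FG

open Pool.Agent.H90.WC Pool.Agent.H81.TG

/-- The closed disc on the sphere. -/
def bl (x : ℂ) (σ : ℝ) : Set (OnePoint ℂ) := (fun v : ℂ => (v : OnePoint ℂ)) '' Metric.closedBall x σ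

lemma bl_compact (x : ℂ) (σ : ℝ) : IsCompact (bl x σ) :=
  (isCompact_closedBall x σ).image OnePoint.continuous_coe

lemma bl_conn (x : ℂ) (σ : ℝ) : IsPreconnected (bl x σ) :=
  (convex_closedBall x σ).isPreconnected.image _ OnePoint.continuous_coe.continuousOn

lemma mem_bl {x v : ℂ} {σ : ℝ} : (v : OnePoint ℂ) ∈ bl x σ ↔ ‖v - x‖ ≤ σ := by
  unfold bl
  constructor
  · rintro ⟨w, hw, e⟩
    rw [OnePoint.coe_injective e] at hw
    exact mem_closedBall_iff_norm.1 hw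
  · intro h
    exact ⟨v, mem_closedBall_iff_norm.2 h, rfl⟩

lemma bl_fin {x : ℂ} {σ : ℝ} {y : OnePoint ℂ} (h : y ∈ bl x σ) : ∃ v : ℂ, y = v ∧ ‖v - x‖ ≤ σ := by
  obtain ⟨v, hv, e⟩ := h
  exact ⟨v, e.symm, mem_closedBall_iff_norm.1 hv⟩

/-- The leg from the disc around `xi` to the circle around `x`, outside of the disc around `x`. -/
lemma leg_out {L : Set (OnePoint ℂ)} (hL : IsCompact L) (hLc : IsPreconnected L) {x xi : ℂ}
    {σ : ℝ} (hx : 2 * σ < ‖xi - x‖) (h1 : ∃ v : ℂ, (v : OnePoint ℂ) ∈ L ∧ ‖v - xi‖ ≤ σ)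
    (h2 : ∃ v : ℂ, (v : OnePoint ℂ) ∈ L ∧ ‖v - x‖ ≤ σ) :
    ∃ E : Set (OnePoint ℂ), E ⊆ L ∪ bl xi σ ∧ bl xi σ ⊆ E ∧ IsCompact E ∧ IsPreconnected E ∧
      (∀ v : ℂ, (v : OnePoint ℂ) ∈ E → σ ≤ ‖v - x‖) ∧
      ∃ v : ℂ, (v : OnePoint ℂ) ∈ E ∧ ‖v - x‖ = σ := by
  obtain ⟨v1, hv1, hv1'⟩ := h1
  obtain ⟨v2, hv2, hv2'⟩ := h2
  have hcon : IsPreconnected (L ∪ bl xi σ) :=
    hLc.union (v1 : OnePoint ℂ) hv1 (mem_bl.2 hv1') (bl_conn _ _)
  have hWc : IsClosed ((fun v : ℂ => (v : OnePoint ℂ)) '' Metric.ball x σ)ᶜ :=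
    (OnePoint.isOpenEmbedding_coe.isOpenMap _ Metric.isOpen_ball).isClosed_compl
  have far : ∀ v : ℂ, ‖v - xi‖ ≤ σ → σ < ‖v - x‖ := by
    intro v hv
    have e : xi - x = (v - x) - (v - xi) := by ring
    have := norm_sub_le (v - x) (v - xi)
    rw [← e] at this
    linarith
  obtain ⟨κ, hsub, hκ1, hκ2, ⟨u, hu1, hu2⟩, ⟨w, hw1, hw2⟩⟩ := bumping (hL.union (bl_compact xi σ))
    hcon hWc (bl_compact xi σ).isClosed (bl_compact x σ).isClosed
    (by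
      intro y _
      by_cases hy : y ∈ (fun v : ℂ => (v : OnePoint ℂ)) '' Metric.ball x σ
      · right; right
        obtain ⟨v, hv, e⟩ := hy
        exact ⟨v, Metric.ball_subset_closedBall hv, e⟩
      · exact Or.inl hy)
    (by
      intro y _ hy1 hy2
      obtain ⟨v, e, hv⟩ := bl_fin hy1
      rw [e, mem_bl] at hy2
      exact absurd (far v hv) (not_lt.2 hy2))
    ⟨(xi : OnePoint ℂ), Or.inr (mem_bl.2 (by
      rw [sub_self, norm_zero]; exact (norm_nonneg _).trans hv1')), mem_bl.2 (by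
      rw [sub_self, norm_zero]; exact (norm_nonneg _).trans hv1')⟩
    ⟨(v2 : OnePoint ℂ), Or.inl hv2, mem_bl.2 hv2'⟩
  have out : ∀ v : ℂ, (v : OnePoint ℂ) ∈ κ → σ ≤ ‖v - x‖ := by
    intro v hv
    by_contra hlt
    push Not at hlt
    exact (hsub hv).2 ⟨v, mem_ball_iff_norm.2 hlt, rfl⟩
  refine ⟨κ ∪ bl xi σ, ?_, subset_union_right, hκ1.union (bl_compact _ _),
    hκ2.union u hu1 hu2 (bl_conn _ _), ?_, ?_⟩
  · rintro y (hy | hy)
    · exact (hsub hy).1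
    · exact Or.inr hy
  · rintro v (hv | hv)
    · exact out v hv
    · exact (far v (mem_bl.1 hv)).le
  · obtain ⟨v, e, hv⟩ := bl_fin hw2
    rw [e] at hw1
    exact ⟨v, Or.inl hw1, le_antisymm hv (out v hw1)⟩

/-- Five discs cannot be joined pairwise by disjoint continua which miss the other discs. -/
theorem k5 {σ : ℝ} (hσ : 0 < σ) (x : Fin 5 → ℂ) (hx : ∀ i j, i ≠ j → 2 * σ < ‖x i - x j‖)
    (A : Fin 5 → Fin 5 → Set (OnePoint ℂ))
    (hc : ∀ i j, i ≠ j → IsCompact (A i j) ∧ IsPreconnected (A i j))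
    (hm1 : ∀ i j, i ≠ j → ∃ v : ℂ, (v : OnePoint ℂ) ∈ A i j ∧ ‖v - x i‖ ≤ σ)
    (hm2 : ∀ i j, i ≠ j → ∃ v : ℂ, (v : OnePoint ℂ) ∈ A i j ∧ ‖v - x j‖ ≤ σ)
    (hmiss : ∀ i j k, i ≠ j → k ≠ i → k ≠ j → ∀ v : ℂ, (v : OnePoint ℂ) ∈ A i j → σ < ‖v - x k‖)
    (hd : ∀ i j k l, i ≠ j → k ≠ l → i ≠ k → j ≠ k ∨ i ≠ l → Disjoint (A i j) (A k l)) :
    False := by
  -- the four legs
  have hlegs : ∀ i : Fin 5, ∃ E : Set (OnePoint ℂ), i ≠ 4 → E ⊆ A i 4 ∪ bl (x i) σ ∧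
      bl (x i) σ ⊆ E ∧ IsCompact E ∧ IsPreconnected E ∧
      (∀ v : ℂ, (v : OnePoint ℂ) ∈ E → σ ≤ ‖v - x 4‖) ∧
      ∃ v : ℂ, (v : OnePoint ℂ) ∈ E ∧ ‖v - x 4‖ = σ := by
    intro i
    by_cases hi : i = 4
    · exact ⟨∅, fun h => absurd hi h⟩
    · obtain ⟨E, hE⟩ := leg_out (hc i 4 hi).1 (hc i 4 hi).2 (hx i 4 hi) (hm1 i 4 hi) (hm2 i 4 hi)
      exact ⟨E, fun _ => hE⟩
  choose E hE using hlegs
  have hv : ∀ i : Fin 5, ∃ v : ℂ, i ≠ 4 → (v : OnePoint ℂ) ∈ E i ∧ ‖v - x 4‖ = σ := by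
    intro i
    by_cases hi : i = 4
    · exact ⟨0, fun h => absurd hi h⟩
    · obtain ⟨v, hv⟩ := (hE i hi).2.2.2.2.2
      exact ⟨v, fun _ => hv⟩
  choose v hv using hv
  -- disjointness
  have dBB : ∀ i j, i ≠ j → Disjoint (bl (x i) σ) (bl (x j) σ) := by
    intro i j hij
    rw [disjoint_left]
    intro y hy1 hy2
    obtain ⟨w, e, hw⟩ := bl_fin hy1
    rw [e, mem_bl] at hy2
    have h1 := hx i j hij
    have e2 : x i - x j = (w - x j) - (w - x i) := by ring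
    have := norm_sub_le (w - x j) (w - x i)
    rw [← e2] at this
    linarith
  have dAB : ∀ i j k, i ≠ j → k ≠ i → k ≠ j → Disjoint (A i j) (bl (x k) σ) := by
    intro i j k h1 h2 h3
    rw [disjoint_left]
    intro y hy1 hy2
    obtain ⟨w, e, hw⟩ := bl_fin hy2
    rw [e] at hy1
    exact absurd (hmiss i j k h1 h2 h3 w hy1) (not_lt.2 hw)
  have dEE : ∀ i j, i ≠ 4 → j ≠ 4 → i ≠ j → Disjoint (E i) (E j) := by
    intro i j hi hj hij
    refine Disjoint.mono (hE i hi).1 (hE j hj).1 ?_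
    rw [disjoint_union_left, disjoint_union_right, disjoint_union_right]
    exact ⟨⟨hd i 4 j 4 hi hj hij (Or.inr hi), dAB i 4 j hi hij.symm hj⟩,
      (dAB j 4 i hj hij hi).symm, dBB i j hij⟩
  have dAE : ∀ i j k, i ≠ 4 → j ≠ 4 → k ≠ 4 → i ≠ j → k ≠ i → k ≠ j →
      Disjoint (A i j) (E k) := by
    intro i j k hi hj hk hij hki hkj
    refine Disjoint.mono_right (hE k hk).1 ?_
    rw [disjoint_union_right]
    exact ⟨hd i j k 4 hij hk hki.symm (Or.inl hkj.symm), dAB i j k hij hki hkj⟩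
  -- the crossing
  have key : ∀ i j k l : Fin 5, i ≠ 4 → j ≠ 4 → k ≠ 4 → l ≠ 4 → i ≠ j → k ≠ l → i ≠ k → i ≠ l →
      j ≠ k → j ≠ l →
      sd ((σ : ℂ) / (v i - x 4)) ((σ : ℂ) / (v j - x 4)) ((σ : ℂ) / (v k - x 4))
      * sd ((σ : ℂ) / (v i - x 4)) ((σ : ℂ) / (v j - x 4)) ((σ : ℂ) / (v l - x 4)) < 0 →
      False := by
    intro i j k l hi hj hk hl hij hkl hik hil hjk hjl hS
    have big : ∀ i j : Fin 5, i ≠ 4 → j ≠ 4 → i ≠ j →
        IsCompact (E i ∪ A i j ∪ E j) ∧ IsPreconnected (E i ∪ A i j ∪ E j) ∧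
        ∀ w : ℂ, (w : OnePoint ℂ) ∈ E i ∪ A i j ∪ E j → σ ≤ ‖w - x 4‖ := by
      intro i j hi hj hij
      obtain ⟨w1, hw1, hw1'⟩ := hm1 i j hij
      obtain ⟨w2, hw2, hw2'⟩ := hm2 i j hij
      refine ⟨((hE i hi).2.2.1.union (hc i j hij).1).union (hE j hj).2.2.1, ?_, ?_⟩
      · have h1 : IsPreconnected (E i ∪ A i j) :=
          (hE i hi).2.2.2.1.union (w1 : OnePoint ℂ) ((hE i hi).2.1 (mem_bl.2 hw1')) hw1
            (hc i j hij).2
        exact h1.union (w2 : OnePoint ℂ) (Or.inr hw2) ((hE j hj).2.1 (mem_bl.2 hw2'))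
          (hE j hj).2.2.2.1
      · rintro w ((hw | hw) | hw)
        · exact (hE i hi).2.2.2.2.1 w hw
        · exact (hmiss i j 4 hij hi.symm hj.symm w hw).le
        · exact (hE j hj).2.2.2.2.1 w hw
    obtain ⟨P1, P2, P3⟩ := big i j hi hj hij
    obtain ⟨Q1, Q2, Q3⟩ := big k l hk hl hkl
    obtain ⟨y, hy1, hy2⟩ := cross_out P1 P2 Q1 Q2 hσ P3 Q3
      (Or.inl (Or.inl (hv i hi).1)) (Or.inr (hv j hj).1) (Or.inl (Or.inl (hv k hk).1))
      (Or.inr (hv l hl).1) (hv i hi).2 (hv j hj).2 (hv k hk).2 (hv l hl).2 hS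
    rcases hy1 with (h | h) | h <;> rcases hy2 with (h' | h') | h'
    · exact disjoint_left.1 (dEE i k hi hk hik) h h'
    · exact disjoint_left.1 (dAE k l i hk hl hi hkl hik hil) h' h
    · exact disjoint_left.1 (dEE i l hi hl hil) h h'
    · exact disjoint_left.1 (dAE i j k hi hj hk hij hik.symm hjk.symm) h h'
    · exact disjoint_left.1 (hd i j k l hij hkl hik (Or.inl hjk)) h h'
    · exact disjoint_left.1 (dAE i j l hi hj hl hij hil.symm hjl.symm) h h'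
    · exact disjoint_left.1 (dEE j k hj hk hjk) h h'
    · exact disjoint_left.1 (dAE k l j hk hl hj hkl hjk hjl) h' h
    · exact disjoint_left.1 (dEE j l hj hl hjl) h h'
  -- the four points of the unit circle
  have hσC : (σ : ℂ) ≠ 0 := by exact_mod_cast hσ.ne'
  have hn : ∀ i : Fin 5, i ≠ 4 → ‖(σ : ℂ) / (v i - x 4)‖ = 1 := by
    intro i hi
    rw [norm_div, Complex.norm_real, Real.norm_of_nonneg hσ.le, (hv i hi).2, div_self hσ.ne']
  have hne : ∀ i j : Fin 5, i ≠ 4 → j ≠ 4 → i ≠ j →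
      (σ : ℂ) / (v i - x 4) ≠ (σ : ℂ) / (v j - x 4) := by
    intro i j hi hj hij h
    have h1 : v i = v j := by
      rw [div_eq_mul_inv, div_eq_mul_inv] at h
      have h2 := inv_injective (mul_left_cancel₀ hσC h)
      exact sub_left_injective h2
    have h3 := (hv j hj).1
    rw [← h1] at h3
    exact disjoint_left.1 (dEE i j hi hj hij) (hv i hi).1 h3
  have n0 : (0 : Fin 5) ≠ 4 := by decide
  have n1 : (1 : Fin 5) ≠ 4 := by decide
  have n2 : (2 : Fin 5) ≠ 4 := by decide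
  have n3 : (3 : Fin 5) ≠ 4 := by decide
  have n01 : (0 : Fin 5) ≠ 1 := by decide
  have n02 : (0 : Fin 5) ≠ 2 := by decide
  have n03 : (0 : Fin 5) ≠ 3 := by decide
  have n12 : (1 : Fin 5) ≠ 2 := by decide
  have n13 : (1 : Fin 5) ≠ 3 := by decide
  have n23 : (2 : Fin 5) ≠ 3 := by decide
  rcases pairing (hn 0 n0) (hn 1 n1) (hn 2 n2) (hn 3 n3) (hne 0 1 n0 n1 n01)
    (hne 0 2 n0 n2 n02) (hne 0 3 n0 n3 n03) (hne 1 2 n1 n2 n12) (hne 1 3 n1 n3 n13)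
    (hne 2 3 n2 n3 n23) with h | h | h
  · exact key 0 1 2 3 n0 n1 n2 n3 n01 n23 n02 n03 n12 n13 h
  · exact key 0 2 1 3 n0 n2 n1 n3 n02 n13 n01 n03 n12.symm n23 h
  · exact key 0 3 1 2 n0 n3 n1 n2 n03 n12 n01 n02 n13.symm n23.symm h

end Pool.Agent.H81.FG
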