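import Pool.Agent.H90.WC.Basic

/-!
Moebius estimates and packing of grid points (problem MP_90715c_gt, FatAtGeneric).
-/

open Matrix Set Filter Topology MeasureTheory

namespace Pool.Agent.H81.FG

open Pool.Agent.H90.WC

/-- Disjoint balls in a set. -/
theorem pack {ι : Type*} (F : Finset ι) (u : ι → ℂ) {a : ℝ} (ha : 0 < a)
    (hF : ∀ i ∈ F, ∀ j ∈ F, i ≠ j → 2 * a ≤ ‖u i - u j‖) {S : Set ℂ}
    (hS : ∀ i ∈ F, Metric.ball (u i) a ⊆ S) :
    ENNReal.ofReal ((F.card : ℝ) * (Real.pi * a ^ 2)) ≤ volume S := by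
  have h1 : volume (⋃ i ∈ F, Metric.ball (u i) a) = ∑ i ∈ F, volume (Metric.ball (u i) a) := by
    refine measure_biUnion_finset ?_ fun i _ => measurableSet_ball
    intro i hi j hj hij
    refine Metric.ball_disjoint_ball ?_
    rw [dist_eq_norm]
    have := hF i hi j hj hij
    linarith
  have h2 : ∀ i, volume (Metric.ball (u i) a) = ENNReal.ofReal (Real.pi * a ^ 2) := by
    intro i
    rw [Complex.volume_ball, ← ENNReal.ofReal_pow ha.le, mul_comm,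
      ENNReal.ofReal_mul Real.pi_pos.le]
    congr 1
    rw [ENNReal.ofReal]
    congr 1
    exact (Real.toNNReal_coe (r := NNReal.pi)).symm
  have h3 : ∑ i ∈ F, volume (Metric.ball (u i) a)
      = ENNReal.ofReal ((F.card : ℝ) * (Real.pi * a ^ 2)) := by
    rw [Finset.sum_congr rfl fun i _ => h2 i, Finset.sum_const, nsmul_eq_mul,
      ENNReal.ofReal_mul (Nat.cast_nonneg _), ENNReal.ofReal_natCast]
  rw [← h3, ← h1]
  exact measure_mono (iUnion₂_subset hS)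

/-! ### The inverse map -/

lemma den_inv (g : G) (z : ℂ) : g⁻¹ 1 0 * z + g⁻¹ 1 1 = g 0 0 - g 1 0 * z := by
  rw [inv_10, inv_11]; ring

lemma norm_den {g : G} (hc : g 1 0 ≠ 0) (z : ℂ) :
    ‖g 0 0 - g 1 0 * z‖ = ‖g 1 0‖ * ‖z - g 0 0 / g 1 0‖ := by
  rw [← norm_mul, ← norm_neg]
  congr 1
  field_simp
  ring

/-- The distance formula for the inverse map. -/
lemma dist_inv {g : G} (hc : g 1 0 ≠ 0) {z w : ℂ} (hz : z ≠ g 0 0 / g 1 0)
    (hw : w ≠ g 0 0 / g 1 0) :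
    ‖mob g⁻¹ z - mob g⁻¹ w‖
      = ‖z - w‖ / (‖g 1 0‖ ^ 2 * (‖z - g 0 0 / g 1 0‖ * ‖w - g 0 0 / g 1 0‖)) := by
  have hdz : g 0 0 - g 1 0 * z ≠ 0 := by
    rw [← norm_pos_iff, norm_den hc]
    exact mul_pos (norm_pos_iff.2 hc) (norm_pos_iff.2 (sub_ne_zero.2 hz))
  have hdw : g 0 0 - g 1 0 * w ≠ 0 := by
    rw [← norm_pos_iff, norm_den hc]
    exact mul_pos (norm_pos_iff.2 hc) (norm_pos_iff.2 (sub_ne_zero.2 hw))
  have e : mob g⁻¹ z - mob g⁻¹ w = (z - w) / ((g 0 0 - g 1 0 * z) * (g 0 0 - g 1 0 * w)) := by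
    unfold mob
    rw [den_inv, den_inv, inv_00, inv_01, div_sub_div _ _ hdz hdw]
    congr 1
    have := det_eq g
    linear_combination (z - w) * this
  rw [e, norm_div, norm_mul, norm_den hc, norm_den hc]
  congr 1
  ring

lemma act_inv_coe {g : G} (hc : g 1 0 ≠ 0) {z : ℂ} (hz : z ≠ g 0 0 / g 1 0) :
    act g⁻¹ (z : OnePoint ℂ) = ((mob g⁻¹ z : ℂ) : OnePoint ℂ) := by
  apply act_coe_of_ne
  rw [den_inv, ← norm_pos_iff, norm_den hc]
  exact mul_pos (norm_pos_iff.2 hc) (norm_pos_iff.2 (sub_ne_zero.2 hz))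

/-- The distance of an image point from the image of infinity. -/
lemma mob_sub_inf {g : G} (hc : g 1 0 ≠ 0) {u : ℂ} (hu : g 1 0 * u + g 1 1 ≠ 0) :
    mob g u - g 0 0 / g 1 0 = -1 / (g 1 0 * (g 1 0 * u + g 1 1)) := by
  unfold mob
  rw [div_sub_div _ _ hu hc, div_eq_div_iff (mul_ne_zero hu hc) (mul_ne_zero hc hu)]
  have := det_eq g
  linear_combination (-(g 1 0 * (g 1 0 * u + g 1 1))) * this

lemma mob_ne_inf {g : G} (hc : g 1 0 ≠ 0) {u : ℂ} (hu : g 1 0 * u + g 1 1 ≠ 0) :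
    mob g u ≠ g 0 0 / g 1 0 := by
  rw [← sub_ne_zero, mob_sub_inf hc hu]
  exact div_ne_zero (neg_ne_zero.2 one_ne_zero) (mul_ne_zero hc hu)

lemma mob_inv_mob {g : G} (hc : g 1 0 ≠ 0) {u : ℂ} (hu : g 1 0 * u + g 1 1 ≠ 0) :
    mob g⁻¹ (mob g u) = u := by
  have h1 := act_inv_coe hc (mob_ne_inf hc hu)
  rw [← act_coe_of_ne hu, act_inv_act] at h1
  exact (OnePoint.coe_injective h1).symm

/-! ### The grid -/

/-- The grid points of the unit square. -/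
noncomputable def gp {N : ℕ} (c : Fin N × Fin N) : ℂ := ⟨(c.1 : ℝ) / N, (c.2 : ℝ) / N⟩

lemma gp_le {N : ℕ} (hN : 0 < N) (a b : Fin N × Fin N) : ‖gp a - gp b‖ ≤ 3 / 2 := by
  have hN' : (0 : ℝ) < N := by exact_mod_cast hN
  have f : ∀ i : Fin N, 0 ≤ (i : ℝ) / N ∧ (i : ℝ) / N ≤ 1 := by
    intro i
    refine ⟨by positivity, ?_⟩
    rw [div_le_one hN']
    exact_mod_cast i.2.le
  have h1 := f a.1
  have h2 := f a.2
  have h3 := f b.1
  have h4 := f b.2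
  have h5 : ‖gp a - gp b‖ ^ 2 ≤ 2 := by
    rw [Complex.sq_norm, Complex.normSq_apply, Complex.sub_re, Complex.sub_im]
    simp only [gp]
    nlinarith
  nlinarith [norm_nonneg (gp a - gp b)]

lemma gp_sep {N : ℕ} (hN : 0 < N) {a b : Fin N × Fin N} (hab : a ≠ b) :
    1 / (N : ℝ) ≤ ‖gp a - gp b‖ := by
  have hN' : (0 : ℝ) < N := by exact_mod_cast hN
  have f : ∀ i j : Fin N, i ≠ j → 1 / (N : ℝ) ≤ |(i : ℝ) / N - (j : ℝ) / N| := by
    intro i j hij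
    rw [← sub_div, abs_div, abs_of_pos hN']
    gcongr
    have h1 : ((i : ℕ) : ℤ) - ((j : ℕ) : ℤ) ≠ 0 := by
      intro h
      apply hij
      apply Fin.ext
      omega
    have h2 := Int.one_le_abs h1
    exact_mod_cast h2
  by_cases h1 : a.1 = b.1
  · have h2 : a.2 ≠ b.2 := fun h => hab (Prod.ext h1 h)
    refine (f _ _ h2).trans ?_
    have := Complex.abs_im_le_norm (gp a - gp b)
    rwa [Complex.sub_im] at this
  · refine (f _ _ h1).trans ?_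
    have := Complex.abs_re_le_norm (gp a - gp b)
    rwa [Complex.sub_re] at this

/-- The number of grid points which are close to a translate. -/
theorem view_count {K : Set (OnePoint ℂ)} {g : G} {p : ℂ} (hp : g 1 0 * p + g 1 1 ≠ 0)
    (hc : g 1 0 ≠ 0) {N : ℕ} (hN : 0 < N) {a b : Fin N × Fin N} {ρ σ s : ℝ}
    (hρ : ρ ≤ 1 / 32) (hσ0 : 0 ≤ σ) (hσ : σ ≤ 1 / 32) (hσs : σ ≤ s) (hNs : 1 / (N : ℝ) ≤ s)
    (hx : ‖mob g p - gp a‖ < ρ) (hy : ‖g 0 0 / g 1 0 - gp b‖ < ρ) (hab : 1 / 8 ≤ ‖gp a - gp b‖)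
    (Z : Finset (Fin N × Fin N))
    (hZ : ∀ c ∈ Z, 1 / 8 ≤ ‖gp c - gp b‖ ∧
      ∃ v : ℂ, ‖v - gp c‖ ≤ σ ∧ act g⁻¹ (v : OnePoint ℂ) ∈ K)
    {r : ℝ} (hr : r = 513 / ‖g 1 0‖ ^ 2)
    (hvol : volume {v : ℂ | ‖v - p‖ ≤ r ∧ ∃ w : ℂ, (w : OnePoint ℂ) ∈ K ∧ ‖v - w‖ ≤ s * r}
      ≤ ENNReal.ofReal (r ^ 2 / 10 ^ 9)) :
    (Z.card : ℝ) ≤ 1 / 100 * (N : ℝ) ^ 2 := by
  have hN' : (0 : ℝ) < N := by exact_mod_cast hN
  have hc0 : 0 < ‖g 1 0‖ := norm_pos_iff.2 hc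
  have hcc : 0 < ‖g 1 0‖ ^ 2 := by positivity
  have hN1 : 1 / (N : ℝ) ≤ 1 := by
    rw [div_le_one hN']
    exact_mod_cast hN
  set R : ℝ := 1 / ‖g 1 0‖ ^ 2 with hR
  have hR0 : 0 < R := by positivity
  have hrR : r = 513 * R := by rw [hr, hR]; ring
  set y' : ℂ := g 0 0 / g 1 0 with hy'
  -- distances
  have lo : ∀ {z : ℂ}, 1 / 8 - 1 / 32 ≤ ‖z - gp b‖ → 1 / 16 ≤ ‖z - y'‖ := by
    intro z hz
    have e : z - gp b = (z - y') + (y' - gp b) := by ring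
    have := norm_add_le (z - y') (y' - gp b)
    rw [← e] at this
    linarith
  have nz : ∀ {z : ℂ}, 1 / 16 ≤ ‖z - y'‖ → z ≠ y' := by
    intro z hz h
    rw [h, sub_self, norm_zero] at hz
    linarith
  have hi : ∀ c : Fin N × Fin N, ‖gp c - y'‖ ≤ 2 := by
    intro c
    have e : gp c - y' = (gp c - gp b) - (y' - gp b) := by ring
    have h1 := norm_sub_le (gp c - gp b) (y' - gp b)
    have h2 := gp_le hN c b
    rw [← e] at h1
    linarith
  have lx : 1 / 16 ≤ ‖mob g p - y'‖ := by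
    apply lo
    have e : gp a - gp b = (mob g p - gp b) - (mob g p - gp a) := by ring
    have := norm_sub_le (mob g p - gp b) (mob g p - gp a)
    rw [← e] at this
    linarith
  have lz : ∀ c ∈ Z, 1 / 16 ≤ ‖gp c - y'‖ := by
    intro c hcZ
    apply lo
    linarith [(hZ c hcZ).1]
  have hdist : ∀ {z w : ℂ}, z ≠ y' → w ≠ y' → ‖mob g⁻¹ z - mob g⁻¹ w‖
      = R * (‖z - w‖ / (‖z - y'‖ * ‖w - y'‖)) := by
    intro z w hz hw
    rw [dist_inv hc hz hw, hR, one_div, ← div_eq_inv_mul, div_div, mul_comm (‖g 1 0‖ ^ 2)]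
  -- upper bound for distances
  have up : ∀ {z w : ℂ}, 1 / 16 ≤ ‖z - y'‖ → 1 / 16 ≤ ‖w - y'‖ →
      ‖mob g⁻¹ z - mob g⁻¹ w‖ ≤ R * (256 * ‖z - w‖) := by
    intro z w hz hw
    rw [hdist (nz hz) (nz hw)]
    gcongr
    have h1 : (1 / 16 : ℝ) * (1 / 16) ≤ ‖z - y'‖ * ‖w - y'‖ := by gcongr
    have h2 : 0 < ‖z - y'‖ * ‖w - y'‖ := by linarith
    rw [div_le_iff₀ h2]
    nlinarith [norm_nonneg (z - w)]
  -- lower bound for distances
  have down : ∀ c ∈ Z, ∀ d ∈ Z, c ≠ d →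
      2 * (R / (8 * N)) ≤ ‖mob g⁻¹ (gp c) - mob g⁻¹ (gp d)‖ := by
    intro c hcZ d hdZ hcd
    rw [hdist (nz (lz c hcZ)) (nz (lz d hdZ))]
    have h1 : ‖gp c - y'‖ * ‖gp d - y'‖ ≤ 2 * 2 := by
      gcongr
      · exact hi c
      · exact hi d
    have h2 : 0 < ‖gp c - y'‖ * ‖gp d - y'‖ :=
      mul_pos (by linarith [lz c hcZ]) (by linarith [lz d hdZ])
    have h3 := gp_sep hN hcd
    have h4 : 1 / (N : ℝ) / 4 ≤ ‖gp c - gp d‖ / (‖gp c - y'‖ * ‖gp d - y'‖) := by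
      rw [div_le_div_iff₀ (by norm_num) h2]
      have := norm_nonneg (gp c - gp d)
      have h5 : 0 < 1 / (N : ℝ) := by positivity
      nlinarith
    calc 2 * (R / (8 * N)) = R * (1 / (N : ℝ) / 4) := by field_simp; ring
      _ ≤ _ := by gcongr
  have hball : ∀ c ∈ Z, Metric.ball (mob g⁻¹ (gp c)) (R / (8 * N)) ⊆
      {v : ℂ | ‖v - p‖ ≤ r ∧ ∃ w : ℂ, (w : OnePoint ℂ) ∈ K ∧ ‖v - w‖ ≤ s * r} := by
    intro c hcZ q hq
    rw [mem_ball_iff_norm] at hq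
    obtain ⟨h8, v, hv, hvK⟩ := hZ c hcZ
    have hlv : 1 / 16 ≤ ‖v - y'‖ := by
      apply lo
      have e : gp c - gp b = (v - gp b) - (v - gp c) := by ring
      have := norm_sub_le (v - gp b) (v - gp c)
      rw [← e] at this
      linarith
    have hRN : R / (8 * N) = R * (1 / (N : ℝ)) / 8 := by field_simp
    have hRN1 : R * (1 / (N : ℝ)) ≤ R * 1 := by gcongr
    have hRN2 : R * (1 / (N : ℝ)) ≤ R * s := by gcongr
    constructor
    · have k1 := up (lz c hcZ) lx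
      rw [mob_inv_mob hc hp] at k1
      have k2 : ‖gp c - mob g p‖ ≤ 2 := by
        have e : gp c - mob g p = (gp c - gp a) - (mob g p - gp a) := by ring
        have h1 := norm_sub_le (gp c - gp a) (mob g p - gp a)
        have h2 := gp_le hN c a
        rw [← e] at h1
        linarith
      have k3 : R * (256 * ‖gp c - mob g p‖) ≤ R * (256 * 2) := by gcongr
      have e : q - p = (q - mob g⁻¹ (gp c)) + (mob g⁻¹ (gp c) - p) := by ring
      have k4 := norm_add_le (q - mob g⁻¹ (gp c)) (mob g⁻¹ (gp c) - p)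
      rw [← e] at k4
      show ‖q - p‖ ≤ r
      rw [hrR]
      rw [hRN] at hq
      linarith
    · refine ⟨mob g⁻¹ v, ?_, ?_⟩
      · rw [← act_inv_coe hc (nz hlv)]
        exact hvK
      · have k1 := up (lz c hcZ) hlv
        rw [norm_sub_rev (gp c)] at k1
        have k3 : R * (256 * ‖v - gp c‖) ≤ R * (256 * s) := by
          gcongr
          exact hv.trans hσs
        have e : q - mob g⁻¹ v = (q - mob g⁻¹ (gp c)) + (mob g⁻¹ (gp c) - mob g⁻¹ v) := by ring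
        have k4 := norm_add_le (q - mob g⁻¹ (gp c)) (mob g⁻¹ (gp c) - mob g⁻¹ v)
        rw [← e] at k4
        rw [hrR]
        rw [hRN] at hq
        have hs0 : 0 ≤ s := hσ0.trans hσs
        have := mul_nonneg hR0.le hs0
        linarith
  have hp1 := pack Z (fun c => mob g⁻¹ (gp c)) (a := R / (8 * N)) (by positivity) down hball
  have hp2 := hp1.trans hvol
  rw [ENNReal.ofReal_le_ofReal_iff (by positivity), hrR] at hp2
  have hpi : (3 : ℝ) < Real.pi := Real.pi_gt_three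
  -- arithmetic
  have h5 : (Z.card : ℝ) * (Real.pi * (R / (8 * N)) ^ 2)
      = (Z.card : ℝ) * Real.pi * (R ^ 2 / (64 * (N : ℝ) ^ 2)) := by
    field_simp
    ring
  rw [h5] at hp2
  have h6 : (Z.card : ℝ) * 3 * (R ^ 2 / (64 * (N : ℝ) ^ 2)) ≤ (513 * R) ^ 2 / 10 ^ 9 := by
    refine le_trans ?_ hp2
    gcongr
  have h7 : (Z.card : ℝ) * 3 * (R ^ 2 / (64 * (N : ℝ) ^ 2)) * (64 * (N : ℝ) ^ 2)
      = R ^ 2 * ((Z.card : ℝ) * 3) := by
    field_simp
  have h8 : R ^ 2 * ((Z.card : ℝ) * 3) ≤ R ^ 2 * (513 ^ 2 / 10 ^ 9 * (64 * (N : ℝ) ^ 2)) := by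
    rw [← h7]
    calc _ ≤ (513 * R) ^ 2 / 10 ^ 9 * (64 * (N : ℝ) ^ 2) := by gcongr
      _ = _ := by ring
  have h9 := le_of_mul_le_mul_left h8 (by positivity)
  have h10 : 0 ≤ (N : ℝ) ^ 2 := by positivity
  nlinarith

end Pool.Agent.H81.FG
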