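import Pool.Agent.H81.FG.Defs
import Pool.Agent.H81.FG.K5
import Pool.Agent.H81.FG.View
import Pool.Agent.H81.FG.Count
import Pool.Agent.H81.TG.Main

/-!
A wandering continuum is fat at its generic points (problem MP_90715c_gt, FatAtGeneric).
-/

open Matrix Set Filter Topology MeasureTheory

namespace Pool.Agent.H81.FG

open Pool.Agent.H90.WC Pool.Agent.H81.TG

/-- The number of grid points close to a grid point. -/
lemma near_count {M : ℕ} (hM : 0 < M) (a : Fin (8 * M) × Fin (8 * M)) :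
    ((Nat.card {b : Fin (8 * M) × Fin (8 * M) // ‖gp a - gp b‖ < 1 / 8} : ℕ) : ℝ)
      ≤ 17 / 250 * (Fintype.card (Fin (8 * M) × Fin (8 * M)) : ℝ) := by
  have hM' : (0 : ℝ) < M := by exact_mod_cast hM
  -- one coordinate
  have one : ∀ i : Fin (8 * M), (Finset.univ.filter fun j : Fin (8 * M) =>
      |(i : ℝ) - (j : ℝ)| < M).card ≤ 2 * M := by
    intro i
    have h1 : ((Finset.univ.filter fun j : Fin (8 * M) => |(i : ℝ) - (j : ℝ)| < M).image
        fun j : Fin (8 * M) => ((j : ℕ) : ℤ)) ⊆ Finset.Ioo (((i : ℕ) : ℤ) - M) (((i : ℕ) : ℤ) + M) := by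
      intro z hz
      rw [Finset.mem_image] at hz
      obtain ⟨j, hj, rfl⟩ := hz
      rw [Finset.mem_filter] at hj
      have h2 := abs_lt.1 hj.2
      rw [Finset.mem_Ioo]
      constructor
      · have : ((i : ℕ) : ℝ) - (M : ℝ) < ((j : ℕ) : ℝ) := by linarith [h2.2]
        exact_mod_cast this
      · have : ((j : ℕ) : ℝ) < ((i : ℕ) : ℝ) + (M : ℝ) := by linarith [h2.1]
        exact_mod_cast this
    have h2 := Finset.card_le_card h1
    rw [Finset.card_image_of_injective _ (fun j k h => Fin.ext (by exact_mod_cast h)),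
      Int.card_Ioo] at h2
    omega
  rw [Nat.card_eq_fintype_card, Fintype.card_subtype]
  have hsub : (Finset.univ.filter fun b : Fin (8 * M) × Fin (8 * M) => ‖gp a - gp b‖ < 1 / 8) ⊆
      (Finset.univ.filter fun j : Fin (8 * M) => |(a.1 : ℝ) - (j : ℝ)| < M) ×ˢ
      (Finset.univ.filter fun j : Fin (8 * M) => |(a.2 : ℝ) - (j : ℝ)| < M) := by
    intro b hb
    rw [Finset.mem_filter] at hb
    have hb' := hb.2
    have h1 := Complex.abs_re_le_norm (gp a - gp b)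
    have h2 := Complex.abs_im_le_norm (gp a - gp b)
    rw [Complex.sub_re] at h1
    rw [Complex.sub_im] at h2
    simp only [gp] at h1 h2
    have hN : (0 : ℝ) < ((8 * M : ℕ) : ℝ) := by
      push_cast; positivity
    have conv : ∀ i j : Fin (8 * M), |(i : ℝ) / ((8 * M : ℕ) : ℝ) - (j : ℝ) / ((8 * M : ℕ) : ℝ)|
        < 1 / 8 → |(i : ℝ) - (j : ℝ)| < M := by
      intro i j h
      rw [← sub_div, abs_div, abs_of_pos hN, div_lt_iff₀ hN] at h
      push_cast at h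
      linarith
    rw [Finset.mem_product, Finset.mem_filter, Finset.mem_filter]
    exact ⟨⟨Finset.mem_univ _, conv _ _ (lt_of_le_of_lt h1 hb')⟩,
      ⟨Finset.mem_univ _, conv _ _ (lt_of_le_of_lt h2 hb')⟩⟩
  have h3 := (Finset.card_le_card hsub).trans (by rw [Finset.card_product])
  have h4 : (Finset.univ.filter fun b : Fin (8 * M) × Fin (8 * M) => ‖gp a - gp b‖ < 1 / 8).card
      ≤ 2 * M * (2 * M) := h3.trans (Nat.mul_le_mul (one a.1) (one a.2))
  have h5 : (((Finset.univ.filter fun b : Fin (8 * M) × Fin (8 * M) =>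
      ‖gp a - gp b‖ < 1 / 8).card : ℕ) : ℝ) ≤ 2 * M * (2 * M) := by exact_mod_cast h4
  rw [Fintype.card_prod, Fintype.card_fin]
  push_cast
  refine h5.trans ?_
  nlinarith [mul_pos hM' hM']

/-- Under a strongly expanding map every point different from `p` goes close to the image of
infinity. -/
lemma far_point {p : ℂ} {q : OnePoint ℂ} (hq : q ≠ (p : OnePoint ℂ)) {σ : ℝ} (hσ : 0 < σ) :
    ∃ ρ₀ > (0 : ℝ), ∀ g : G, g 1 0 * p + g 1 1 ≠ 0 → ρ₀⁻¹ < ‖g 1 0‖ →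
      1 / 16 ≤ ‖mob g p - g 0 0 / g 1 0‖ →
      ∃ v : ℂ, act g q = (v : OnePoint ℂ) ∧ ‖v - g 0 0 / g 1 0‖ ≤ σ := by
  induction q using OnePoint.rec with
  | infty =>
    refine ⟨1, one_pos, fun g _ hg _ => ⟨g 0 0 / g 1 0, ?_, ?_⟩⟩
    · rw [act_infty, if_neg]
      intro h
      rw [h, norm_zero, inv_one] at hg
      linarith
    · rw [sub_self, norm_zero]; exact hσ.le
  | coe q =>
    have hqp : q ≠ p := fun h => hq (by rw [h])
    have hd : 0 < ‖q - p‖ := norm_pos_iff.2 (sub_ne_zero.2 hqp)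
    -- `‖c‖ ≥ 1 + (16 + 1 / σ) / ‖q - p‖`
    set D : ℝ := 1 + (16 + 1 / σ) / ‖q - p‖ with hD
    have hD1 : 1 ≤ D := by
      have : 0 ≤ (16 + 1 / σ) / ‖q - p‖ := by positivity
      linarith
    have hD0 : 0 < D := by linarith
    refine ⟨D⁻¹, inv_pos.2 hD0, fun g hg hc h16 => ?_⟩
    rw [inv_inv] at hc
    have hc0 : 0 < ‖g 1 0‖ := hD0.trans hc
    have hcne : g 1 0 ≠ 0 := norm_pos_iff.1 hc0
    have hc1 : 1 ≤ ‖g 1 0‖ := hD1.trans hc.le
    have e1 : ‖g 1 0‖ * ‖g 1 0 * p + g 1 1‖ ≤ 16 := by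
      rw [mob_sub_inf hcne hg, norm_div, norm_neg, norm_one, norm_mul,
        le_div_iff₀ (mul_pos hc0 (norm_pos_iff.2 hg))] at h16
      linarith
    have e2 : 16 + 1 / σ ≤ ‖g 1 0‖ * ‖g 1 0‖ * ‖q - p‖ := by
      have h1 : (16 + 1 / σ) / ‖q - p‖ ≤ ‖g 1 0‖ := by linarith
      rw [div_le_iff₀ hd] at h1
      have h2 : ‖g 1 0‖ * ‖q - p‖ ≤ ‖g 1 0‖ * ‖g 1 0‖ * ‖q - p‖ := by
        have := mul_pos hc0 hd
        nlinarith
      linarith
    have e3 : 1 / σ ≤ ‖g 1 0‖ * ‖g 1 0 * q + g 1 1‖ := by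
      have h1 : g 1 0 * (q - p) = (g 1 0 * q + g 1 1) - (g 1 0 * p + g 1 1) := by ring
      have h2 := norm_sub_le (g 1 0 * q + g 1 1) (g 1 0 * p + g 1 1)
      rw [← h1, norm_mul] at h2
      have h3 : ‖g 1 0‖ * (‖g 1 0‖ * ‖q - p‖)
          ≤ ‖g 1 0‖ * (‖g 1 0 * q + g 1 1‖ + ‖g 1 0 * p + g 1 1‖) := by gcongr
      nlinarith
    have hσ' : 0 < 1 / σ := by positivity
    have hne : g 1 0 * q + g 1 1 ≠ 0 := by
      intro h
      rw [h, norm_zero, mul_zero] at e3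
      linarith
    refine ⟨mob g q, act_coe_of_ne hne, ?_⟩
    rw [mob_sub_inf hcne hne, norm_div, norm_neg, norm_one, norm_mul]
    have h4 : 0 < ‖g 1 0‖ * ‖g 1 0 * q + g 1 1‖ := by linarith
    rw [div_le_iff₀ h4]
    rw [div_le_iff₀ hσ] at e3
    linarith

/-- A wandering continuum is fat at its generic points. -/
theorem fat {Γ : Subgroup G} {K : Set (OnePoint ℂ)} (cpt : IsCompact K) (conn : IsPreconnected K)
    (wand : ∀ g ∈ Γ, g ≠ 1 → g ≠ -1 → ∀ x ∈ K, act g x ∉ K) {p : ℂ} (hp : Gen Γ p)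
    (hpK : (p : OnePoint ℂ) ∈ K) (hn : K.Nontrivial) {s : ℝ} (hs : 0 < s) :
    ∃ᶠ r in 𝓝[>] (0 : ℝ), ENNReal.ofReal (r ^ 2 / 10 ^ 9) <
      volume {v : ℂ | ‖v - p‖ ≤ r ∧ ∃ w : ℂ, (w : OnePoint ℂ) ∈ K ∧ ‖v - w‖ ≤ s * r} := by
  by_contra hcon
  rw [not_frequently] at hcon
  have hcon' : ∀ᶠ r in 𝓝[>] (0 : ℝ),
      volume {v : ℂ | ‖v - p‖ ≤ r ∧ ∃ w : ℂ, (w : OnePoint ℂ) ∈ K ∧ ‖v - w‖ ≤ s * r}
        ≤ ENNReal.ofReal (r ^ 2 / 10 ^ 9) := hcon.mono fun r hr => not_lt.1 hr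
  obtain ⟨r₁, hr₁, hsmall⟩ := mem_nhdsGT_iff_exists_Ioo_subset.1 hcon'
  have hr₁0 : 0 < r₁ := hr₁
  -- another point of `K`
  obtain ⟨q, hqK, hqp⟩ := hn.exists_ne (p : OnePoint ℂ)
  -- the parameters
  set σ : ℝ := min s (1 / 32) with hσdef
  have hσ0 : 0 < σ := lt_min hs (by norm_num)
  have hσs : σ ≤ s := min_le_left _ _
  have hσ1 : σ ≤ 1 / 32 := min_le_right _ _
  obtain ⟨M, hM⟩ := exists_nat_gt (1 / s)
  have hM0 : 0 < M := by
    have h1 : (0 : ℝ) < M := lt_trans (by positivity) hM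
    exact_mod_cast h1
  have hM' : (0 : ℝ) < M := by exact_mod_cast hM0
  have hN0 : 0 < 8 * M := by omega
  have hNs : 1 / ((8 * M : ℕ) : ℝ) ≤ s := by
    have h1 : 1 / s ≤ ((8 * M : ℕ) : ℝ) := by
      push_cast
      linarith
    rw [div_le_iff₀ (by push_cast; positivity)]
    rw [div_le_iff₀ hs] at h1
    linarith
  obtain ⟨ρ₀, hρ₀, hfar⟩ := far_point hqp (σ := σ / 2) (by linarith)
  set ρ : ℝ := min (min (σ / 2) (1 / 64)) (min ρ₀ (min 1 (r₁ / 514))) with hρdef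
  have hρ0 : 0 < ρ := lt_min (lt_min (by linarith) (by norm_num))
    (lt_min hρ₀ (lt_min one_pos (by positivity)))
  have hρ1 : ρ ≤ σ / 2 := (min_le_left _ _).trans (min_le_left _ _)
  have hρ2 : ρ ≤ 1 / 64 := (min_le_left _ _).trans (min_le_right _ _)
  have hρ3 : ρ ≤ ρ₀ := (min_le_right _ _).trans (min_le_left _ _)
  have hρ4 : ρ ≤ 1 := (min_le_right _ _).trans ((min_le_right _ _).trans (min_le_left _ _))
  have hρ5 : ρ ≤ r₁ / 514 := (min_le_right _ _).trans ((min_le_right _ _).trans (min_le_right _ _))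
  -- the translates
  have hex : ∀ a b : Fin (8 * M) × Fin (8 * M), ∃ g : G, 1 / 8 ≤ ‖gp a - gp b‖ →
      g ∈ Γ ∧ g 1 0 * p + g 1 1 ≠ 0 ∧ ρ⁻¹ < ‖g 1 0‖ ∧ ‖mob g p - gp a‖ < ρ ∧
        ‖g 0 0 / g 1 0 - gp b‖ < ρ := by
    intro a b
    by_cases hab : 1 / 8 ≤ ‖gp a - gp b‖
    · have hne : gp a ≠ gp b := by
        intro h
        rw [h, sub_self, norm_zero] at hab
        linarith
      obtain ⟨g, h1, h2, h3, h4, h5⟩ := hp (gp a) (gp b) hne ρ hρ0
      exact ⟨g, fun _ => ⟨h1, h2, h3, h4, h5⟩⟩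
    · exact ⟨1, fun h => absurd h hab⟩
  choose g hg using hex
  -- five points
  have : Nonempty (Fin (8 * M) × Fin (8 * M)) := ⟨(⟨0, hN0⟩, ⟨0, hN0⟩)⟩
  obtain ⟨f, hf1, hf2⟩ := exists_five (X := Fin (8 * M) × Fin (8 * M))
    (fun a b => ‖gp a - gp b‖ < 1 / 8)
    (fun a b c => 1 / 8 ≤ ‖gp a - gp b‖ ∧ 1 / 8 ≤ ‖gp c - gp b‖ ∧
      ∃ v : ℂ, ‖v - gp c‖ ≤ σ ∧ act (g a b)⁻¹ (v : OnePoint ℂ) ∈ K)
    (near_count hM0)
    (by
      intro a b
      by_cases hab : 1 / 8 ≤ ‖gp a - gp b‖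
      · obtain ⟨h1, h2, h3, h4, h5⟩ := hg a b hab
        classical
        have hcpos : 0 < ‖(g a b) 1 0‖ := lt_trans (inv_pos.2 hρ0) h3
        have hc : (g a b) 1 0 ≠ 0 := norm_pos_iff.1 hcpos
        rw [Nat.card_eq_fintype_card, Fintype.card_subtype]
        have hr0 : 0 < 513 / ‖(g a b) 1 0‖ ^ 2 := by positivity
        have hr2 : 513 / ‖(g a b) 1 0‖ ^ 2 < r₁ := by
          have k1 : (ρ⁻¹) ^ 2 < ‖(g a b) 1 0‖ ^ 2 := by
            have := inv_pos.2 hρ0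
            gcongr
          have k2 : 514 / r₁ ≤ ρ⁻¹ := by
            rw [le_inv_comm₀ (by positivity) hρ0, inv_div]
            exact hρ5
          have k3 : ρ⁻¹ ≤ (ρ⁻¹) ^ 2 := by
            have k4 : 1 ≤ ρ⁻¹ := (one_le_inv₀ hρ0).2 hρ4
            nlinarith
          have k5 : 514 / r₁ < ‖(g a b) 1 0‖ ^ 2 := by linarith
          rw [div_lt_iff₀ hr₁0] at k5
          rw [div_lt_iff₀ (by positivity)]
          linarith
        have hv := hsmall ⟨hr0, hr2⟩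
        have := view_count (K := K) h2 hc hN0 (a := a) (b := b) (ρ := ρ) (σ := σ) (s := s)
          (by linarith) hσ0.le hσ1 hσs hNs h4 h5 hab
          (Finset.univ.filter fun c => 1 / 8 ≤ ‖gp a - gp b‖ ∧ 1 / 8 ≤ ‖gp c - gp b‖ ∧
            ∃ v : ℂ, ‖v - gp c‖ ≤ σ ∧ act (g a b)⁻¹ (v : OnePoint ℂ) ∈ K)
          (fun c hc => (Finset.mem_filter.1 hc).2.2) rfl hv
        refine this.trans (le_of_eq ?_)
        rw [Fintype.card_prod, Fintype.card_fin]
        push_cast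
        ring
      · have : IsEmpty {c : Fin (8 * M) × Fin (8 * M) // 1 / 8 ≤ ‖gp a - gp b‖ ∧
            1 / 8 ≤ ‖gp c - gp b‖ ∧
            ∃ v : ℂ, ‖v - gp c‖ ≤ σ ∧ act (g a b)⁻¹ (v : OnePoint ℂ) ∈ K} :=
          ⟨fun c => hab c.2.1⟩
        rw [Nat.card_of_isEmpty]
        push_cast
        positivity)
  -- separation
  have sep : ∀ i j : Fin 5, i ≠ j → 1 / 8 ≤ ‖gp (f i) - gp (f j)‖ := by
    intro i j hij
    rcases lt_or_gt_of_ne hij with h | h
    · exact not_lt.1 (hf1 i j h)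
    · rw [norm_sub_rev]
      exact not_lt.1 (hf1 j i h)
  -- the group elements of the edges
  set gg : Fin 5 → Fin 5 → G := fun i j => if i < j then g (f i) (f j) else g (f j) (f i) with hgg
  have gg1 : ∀ {i j}, i < j → gg i j = g (f i) (f j) := fun h => if_pos h
  have gg2 : ∀ {i j}, j < i → gg i j = g (f j) (f i) := fun h => if_neg (not_lt.2 h.le)
  have ggΓ : ∀ i j, i ≠ j → gg i j ∈ Γ := by
    intro i j hij
    rcases lt_or_gt_of_ne hij with h | h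
    · rw [gg1 h]; exact (hg _ _ (sep i j hij)).1
    · rw [gg2 h]; exact (hg _ _ (sep j i hij.symm)).1
  -- the two ends of an edge
  have ends : ∀ i j, i ≠ j →
      (∃ v : ℂ, act (g (f i) (f j))⁻¹ (v : OnePoint ℂ) ∈ K ∧ ‖v - gp (f i)‖ ≤ σ) ∧
      ∃ v : ℂ, act (g (f i) (f j))⁻¹ (v : OnePoint ℂ) ∈ K ∧ ‖v - gp (f j)‖ ≤ σ := by
    intro i j hij
    obtain ⟨h1, h2, h3, h4, h5⟩ := hg _ _ (sep i j hij)
    constructor
    · refine ⟨mob (g (f i) (f j)) p, ?_, by linarith⟩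
      rw [← act_coe_of_ne h2, act_inv_act]
      exact hpK
    · have h6 : ρ₀⁻¹ < ‖(g (f i) (f j)) 1 0‖ := by
        refine lt_of_le_of_lt ?_ h3
        exact inv_anti₀ hρ0 hρ3
      have h7 : 1 / 16 ≤ ‖mob (g (f i) (f j)) p - (g (f i) (f j)) 0 0 / (g (f i) (f j)) 1 0‖ := by
        have e : gp (f i) - gp (f j) = -(mob (g (f i) (f j)) p - gp (f i))
          + (mob (g (f i) (f j)) p - (g (f i) (f j)) 0 0 / (g (f i) (f j)) 1 0)
          + ((g (f i) (f j)) 0 0 / (g (f i) (f j)) 1 0 - gp (f j)) := by ring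
        have k1 := norm_add_le (-(mob (g (f i) (f j)) p - gp (f i))
          + (mob (g (f i) (f j)) p - (g (f i) (f j)) 0 0 / (g (f i) (f j)) 1 0))
          ((g (f i) (f j)) 0 0 / (g (f i) (f j)) 1 0 - gp (f j))
        have k2 := norm_add_le (-(mob (g (f i) (f j)) p - gp (f i)))
          (mob (g (f i) (f j)) p - (g (f i) (f j)) 0 0 / (g (f i) (f j)) 1 0)
        rw [norm_neg] at k2
        rw [← e] at k1
        have k3 := sep i j hij
        linarith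
      obtain ⟨v, hv1, hv2⟩ := hfar _ h2 h6 h7
      refine ⟨v, ?_, ?_⟩
      · rw [← hv1, act_inv_act]
        exact hqK
      · have e : v - gp (f j) = (v - (g (f i) (f j)) 0 0 / (g (f i) (f j)) 1 0)
          + ((g (f i) (f j)) 0 0 / (g (f i) (f j)) 1 0 - gp (f j)) := by ring
        have k1 := norm_add_le (v - (g (f i) (f j)) 0 0 / (g (f i) (f j)) 1 0)
          ((g (f i) (f j)) 0 0 / (g (f i) (f j)) 1 0 - gp (f j))
        rw [← e] at k1
        linarith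
  have m1 : ∀ i j, i ≠ j → ∃ v : ℂ, (v : OnePoint ℂ) ∈ {y | act (gg i j)⁻¹ y ∈ K} ∧
      ‖v - gp (f i)‖ ≤ σ := by
    intro i j hij
    rcases lt_or_gt_of_ne hij with h | h
    · rw [gg1 h]; exact (ends i j hij).1
    · rw [gg2 h]; exact (ends j i hij.symm).2
  have m2 : ∀ i j, i ≠ j → ∃ v : ℂ, (v : OnePoint ℂ) ∈ {y | act (gg i j)⁻¹ y ∈ K} ∧
      ‖v - gp (f j)‖ ≤ σ := by
    intro i j hij
    rcases lt_or_gt_of_ne hij with h | h
    · rw [gg1 h]; exact (ends i j hij).2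
    · rw [gg2 h]; exact (ends j i hij.symm).1
  have miss : ∀ i j k, i ≠ j → k ≠ i → k ≠ j → ∀ v : ℂ,
      (v : OnePoint ℂ) ∈ {y | act (gg i j)⁻¹ y ∈ K} → σ < ‖v - gp (f k)‖ := by
    intro i j k hij hki hkj v hv
    by_contra hle
    push Not at hle
    rcases lt_or_gt_of_ne hij with h | h
    · rw [gg1 h] at hv
      exact hf2 i j k h hki hkj ⟨sep i j hij, sep k j hkj, v, hle, hv⟩
    · rw [gg2 h] at hv
      exact hf2 j i k h hkj hki ⟨sep j i hij.symm, sep k i hki, v, hle, hv⟩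
  refine k5 hσ0 (fun i => gp (f i)) (fun i j hij => by
      have := sep i j hij
      linarith) (fun i j => {y | act (gg i j)⁻¹ y ∈ K})
    (fun i j _ => act_preimage cpt conn _) m1 m2 miss ?_
  intro i j k l hij hkl hik hor
  rw [disjoint_left]
  intro y hy1 hy2
  -- if the two elements agree up to a sign then the two edges are equal
  have hsame : gg k l = gg i j ∨ gg k l = -gg i j → False := by
    intro hsign
    have hset : ∀ z : OnePoint ℂ, act (gg k l)⁻¹ z = act (gg i j)⁻¹ z := by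
      intro z
      rcases hsign with h | h
      · rw [h]
      · have e : (-gg i j)⁻¹ = -(gg i j)⁻¹ := inv_neg
        rw [h, e, act_neg]
    rcases hor with h | h
    · obtain ⟨v, hv, hv'⟩ := m1 k l hkl
      have hv2 : (v : OnePoint ℂ) ∈ {y | act (gg i j)⁻¹ y ∈ K} := by
        show act (gg i j)⁻¹ (v : OnePoint ℂ) ∈ K
        rw [← hset]; exact hv
      exact absurd (miss i j k hij hik.symm h.symm v hv2) (not_lt.2 hv')
    · obtain ⟨v, hv, hv'⟩ := m1 i j hij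
      have hv2 : (v : OnePoint ℂ) ∈ {y | act (gg k l)⁻¹ y ∈ K} := by
        show act (gg k l)⁻¹ (v : OnePoint ℂ) ∈ K
        rw [hset]; exact hv
      exact absurd (miss k l i hkl hik h v hv2) (not_lt.2 hv')
  exact disj wand (ggΓ i j hij) (ggΓ k l hkl) (fun h => hsame (Or.inl h))
    (fun h => hsame (Or.inr h)) hy1 hy2

end Pool.Agent.H81.FG
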