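import Pool.Agent.H81.FG.Defs
import Pool.Agent.H81.TG.Disc

/-!
Discrete cocompact subgroups of `SL(2, ℂ)` do not fix a point of the sphere (problem MP_90715c_gt,
FatAtGeneric).
-/

open Matrix Set Filter Topology

namespace Pool.Agent.H81.FG

open Pool.Agent.H90.WC Pool.Agent.H81.TG

lemma cpt_bound {C : Set G} (hC : IsCompact C) :
    ∃ R : ℝ, 1 ≤ R ∧ ∀ g ∈ C, ∀ i j, ‖g i j‖ ≤ R := by
  have hc : Continuous fun g : G => ‖g 0 0‖ + ‖g 0 1‖ + ‖g 1 0‖ + ‖g 1 1‖ :=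
    ((((continuous_entry 0 0).norm).add (continuous_entry 0 1).norm).add
      (continuous_entry 1 0).norm).add (continuous_entry 1 1).norm
  obtain ⟨R, hR⟩ := hC.exists_bound_of_continuousOn hc.continuousOn
  refine ⟨max R 1, le_max_right _ _, fun g hg i j => ?_⟩
  have h1 := hR g hg
  have h2 := (le_abs_self _).trans h1
  have n00 := norm_nonneg (g 0 0)
  have n01 := norm_nonneg (g 0 1)
  have n10 := norm_nonneg (g 1 0)
  have n11 := norm_nonneg (g 1 1)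
  have h3 : R ≤ max R 1 := le_max_left _ _
  fin_cases i <;> fin_cases j
  · show ‖g 0 0‖ ≤ max R 1
    linarith
  · show ‖g 0 1‖ ≤ max R 1
    linarith
  · show ‖g 1 0‖ ≤ max R 1
    linarith
  · show ‖g 1 1‖ ≤ max R 1
    linarith

/-- A discrete cocompact group is not upper triangular. -/
theorem no_borel (L : Subgroup G) {C U : Set G} (hC : IsCompact C)
    (hcoc : ∀ g : G, ∃ l ∈ L, l * g ∈ C) (hU : IsOpen U) (h1U : (1 : G) ∈ U)
    (hLU : ∀ g ∈ L, g ∈ U → g = 1) (hup : ∀ l ∈ L, l 1 0 = 0) : False := by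
  obtain ⟨R, hR1, hR⟩ := cpt_bound hC
  have hR0 : 0 < R := by linarith
  -- a contracting element
  obtain ⟨σ, hσL, hσ⟩ : ∃ σ ∈ L, ‖σ 1 1‖ ≤ 1 / 2 := by
    have hr : 0 < (1 / (2 * R)) ^ 2 := by positivity
    obtain ⟨l, hl, hlC⟩ := hcoc (fr 0 ((1 / (2 * R)) ^ 2) hr)
    refine ⟨l, hl, ?_⟩
    have h1 := hR _ hlC 1 1
    rw [mul_11, hup l hl, zero_mul, zero_add, fr_11, norm_mul, norm_inv, Complex.norm_real,
      Real.norm_of_nonneg (Real.sqrt_nonneg _), Real.sqrt_sq (by positivity)] at h1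
    rw [one_div, inv_inv] at h1
    nlinarith [norm_nonneg (l 1 1)]
  have dσ := det_eq σ
  rw [hup σ hσL, mul_zero, sub_zero] at dσ
  have nσ : ‖σ 0 0‖ * ‖σ 1 1‖ = 1 := by rw [← norm_mul, dσ, norm_one]
  have hσ2 : 2 ≤ ‖σ 0 0‖ := by
    nlinarith [norm_nonneg (σ 0 0), norm_nonneg (σ 1 1)]
  -- an element with another fixed point
  set K : ℝ := ‖σ 0 1‖ * ‖σ 0 0‖ * (R ^ 2 + 1) with hK
  have hK0 : 0 ≤ K := by positivity
  obtain ⟨τ, hτL, hτC⟩ := hcoc (fr ((R * (R + R * K + 1) : ℝ) : ℂ) 1 one_pos)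
  have dτ := det_eq τ
  rw [hup τ hτL, mul_zero, sub_zero] at dτ
  have nτ : ‖τ 0 0‖ * ‖τ 1 1‖ = 1 := by rw [← norm_mul, dτ, norm_one]
  have e00 := hR _ hτC 0 0
  have e01 := hR _ hτC 0 1
  have e11 := hR _ hτC 1 1
  rw [mul_00, fr_00, fr_10, mul_zero, add_zero, Real.sqrt_one, Complex.ofReal_one, mul_one] at e00
  rw [mul_11, hup τ hτL, zero_mul, zero_add, fr_11, Real.sqrt_one, Complex.ofReal_one, inv_one,
    mul_one] at e11
  rw [mul_01, fr_01, fr_11, Real.sqrt_one, Complex.ofReal_one, div_one, inv_one, mul_one] at e01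
  have ha : 1 ≤ R * ‖τ 0 0‖ := by
    nlinarith [norm_nonneg (τ 0 0), norm_nonneg (τ 1 1)]
  have hb : R * K + 1 ≤ ‖τ 0 1‖ := by
    have h2 : ‖τ 0 0 * ((R * (R + R * K + 1) : ℝ) : ℂ)‖ = ‖τ 0 0‖ * (R * (R + R * K + 1)) := by
      rw [norm_mul, Complex.norm_real, Real.norm_of_nonneg (by positivity)]
    have h3 : ‖τ 0 0 * ((R * (R + R * K + 1) : ℝ) : ℂ)‖ ≤ R + ‖τ 0 1‖ := by
      have h4 : τ 0 0 * ((R * (R + R * K + 1) : ℝ) : ℂ) =
          (τ 0 0 * ((R * (R + R * K + 1) : ℝ) : ℂ) + τ 0 1) - τ 0 1 := by ring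
      rw [h4]
      exact (norm_sub_le _ _).trans (by linarith)
    rw [h2] at h3
    have h5 : R + R * K + 1 ≤ ‖τ 0 0‖ * (R * (R + R * K + 1)) := by
      have h6 : 0 ≤ R + R * K + 1 := by positivity
      nlinarith
    linarith
  -- the commutator
  set B : ℂ := τ 0 0 * τ 0 1 * (σ 0 0 ^ 2 - 1) + σ 0 1 * σ 0 0 * (1 - τ 0 0 ^ 2) with hB
  have hB0 : B ≠ 0 := by
    intro h0
    have h1 : τ 0 0 * τ 0 1 * (σ 0 0 ^ 2 - 1) = σ 0 1 * σ 0 0 * (τ 0 0 ^ 2 - 1) := by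
      rw [hB] at h0
      linear_combination h0
    have h2 := congrArg norm h1
    rw [norm_mul, norm_mul, norm_mul, norm_mul] at h2
    have h3 : 3 ≤ ‖σ 0 0 ^ 2 - 1‖ := by
      have := norm_sub_norm_le (σ 0 0 ^ 2) 1
      rw [norm_pow, norm_one] at this
      nlinarith
    have h4 : ‖τ 0 0 ^ 2 - 1‖ ≤ R ^ 2 + 1 := by
      refine (norm_sub_le _ _).trans ?_
      rw [norm_pow, norm_one]
      nlinarith [norm_nonneg (τ 0 0)]
    have h5 : ‖σ 0 1‖ * ‖σ 0 0‖ * ‖τ 0 0 ^ 2 - 1‖ ≤ K := by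
      rw [hK]
      gcongr
    have h6 : ‖τ 0 0‖ * ‖τ 0 1‖ * 3 ≤ K := by
      calc ‖τ 0 0‖ * ‖τ 0 1‖ * 3 ≤ ‖τ 0 0‖ * ‖τ 0 1‖ * ‖σ 0 0 ^ 2 - 1‖ := by gcongr
        _ ≤ K := by rw [h2]; exact h5
    have h7 : ‖τ 0 1‖ ≤ R * (‖τ 0 0‖ * ‖τ 0 1‖ * 3) := by
      nlinarith [norm_nonneg (τ 0 1), norm_nonneg (τ 0 0)]
    have h8 : R * (‖τ 0 0‖ * ‖τ 0 1‖ * 3) ≤ R * K := by gcongr
    linarith
  let u : G := σ * τ * (τ * σ)⁻¹
  have huL : u ∈ L := L.mul_mem (L.mul_mem hσL hτL) (L.inv_mem (L.mul_mem hτL hσL))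
  have u00 : u 0 0 = 1 := by
    show (σ * τ * (τ * σ)⁻¹) 0 0 = 1
    rw [mul_00, mul_00, mul_01, inv_00, inv_10, mul_11, mul_10, hup σ hσL, hup τ hτL]
    linear_combination (τ 0 0 * τ 1 1) * dσ + dτ
  have u11 : u 1 1 = 1 := by
    show (σ * τ * (τ * σ)⁻¹) 1 1 = 1
    rw [mul_11, mul_10, mul_11, inv_01, inv_11, mul_01, mul_00, hup σ hσL, hup τ hτL]
    linear_combination (τ 0 0 * τ 1 1) * dσ + dτ
  have u10 : u 1 0 = 0 := hup u huL
  have u01 : u 0 1 = B := by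
    show (σ * τ * (τ * σ)⁻¹) 0 1 = B
    rw [mul_01, mul_00, mul_01, inv_01, inv_11, mul_01, mul_00, hup σ hσL, hup τ hτL, hB]
    linear_combination (-τ 0 0 * τ 0 1) * dσ + (σ 0 0 * σ 0 1) * dτ
  -- its conjugates
  let v : ℕ → G := fun n => (fun g : G => σ⁻¹ * g * σ)^[n] u
  have hv : ∀ n, v n ∈ L ∧ v n 0 0 = 1 ∧ v n 0 1 = (σ 1 1 ^ 2) ^ n * B ∧ v n 1 0 = 0 ∧
      v n 1 1 = 1 := by
    intro n
    induction n with
    | zero => exact ⟨huL, u00, by rw [pow_zero, one_mul]; exact u01, u10, u11⟩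
    | succ n ih =>
      obtain ⟨i1, i2, i3, i4, i5⟩ := ih
      have e : v (n + 1) = σ⁻¹ * v n * σ := Function.iterate_succ_apply' _ _ _
      rw [e]
      refine ⟨L.mul_mem (L.mul_mem (L.inv_mem hσL) i1) hσL, ?_, ?_, ?_, ?_⟩
      · rw [mul_00, mul_00, mul_01, inv_00, inv_01, i2, i3, i4, i5, hup σ hσL]
        linear_combination dσ
      · rw [mul_01, mul_00, mul_01, inv_00, inv_01, i2, i3, i4, i5]
        ring
      · rw [mul_10, mul_10, mul_11, inv_10, inv_11, i2, i3, i4, i5, hup σ hσL]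
        ring
      · rw [mul_11, mul_10, mul_11, inv_10, inv_11, i2, i3, i4, i5, hup σ hσL]
        linear_combination dσ
  have hlim : Tendsto v atTop (𝓝 1) := by
    rw [tendsto_iff]
    intro i j
    have h01 : Tendsto (fun n => (σ 1 1 ^ 2) ^ n * B) atTop (𝓝 0) := by
      have h : Tendsto (fun n => (σ 1 1 ^ 2) ^ n) atTop (𝓝 0) := by
        apply tendsto_pow_atTop_nhds_zero_of_norm_lt_one
        rw [norm_pow]
        nlinarith [norm_nonneg (σ 1 1)]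
      have := h.mul_const B
      rwa [zero_mul] at this
    fin_cases i <;> fin_cases j
    · show Tendsto (fun n => v n 0 0) atTop (𝓝 ((1 : G) 0 0))
      simp only [fun n => (hv n).2.1, Matrix.SpecialLinearGroup.coe_one, Matrix.one_apply_eq]
      exact tendsto_const_nhds
    · show Tendsto (fun n => v n 0 1) atTop (𝓝 ((1 : G) 0 1))
      simp only [fun n => (hv n).2.2.1]
      have e : (1 : G) 0 1 = 0 := by simp
      rw [e]
      exact h01
    · show Tendsto (fun n => v n 1 0) atTop (𝓝 ((1 : G) 1 0))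
      simp only [fun n => (hv n).2.2.2.1]
      have e : (1 : G) 1 0 = 0 := by simp
      rw [e]
      exact tendsto_const_nhds
    · show Tendsto (fun n => v n 1 1) atTop (𝓝 ((1 : G) 1 1))
      simp only [fun n => (hv n).2.2.2.2, Matrix.SpecialLinearGroup.coe_one, Matrix.one_apply_eq]
      exact tendsto_const_nhds
  obtain ⟨n, hn⟩ := (hlim.eventually (hU.mem_nhds h1U)).exists
  have h1 := hLU _ (hv n).1 hn
  have h2 := (hv n).2.2.1
  rw [h1] at h2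
  have e : (1 : G) 0 1 = 0 := by simp
  rw [e] at h2
  have hσ11 : σ 1 1 ≠ 0 := by
    intro h
    rw [h, mul_zero] at dσ
    exact zero_ne_one dσ
  exact mul_ne_zero (pow_ne_zero n (pow_ne_zero 2 hσ11)) hB0 h2.symm

/-- Some element of a discrete cocompact group does not map one given point to another given
point. -/
theorem exists_ne (Γ : Subgroup G) {C U : Set G} (hC : IsCompact C)
    (hcoc : ∀ g : G, ∃ γ ∈ Γ, γ * g ∈ C) (hU : IsOpen U) (h1U : (1 : G) ∈ U)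
    (hΓU : ∀ g ∈ Γ, g ∈ U → g = 1) (a b : G) : ∃ δ ∈ Γ, (a⁻¹ * δ * b) 1 0 ≠ 0 := by
  by_contra hcon
  push Not at hcon
  have h1 : (a⁻¹ * b) 1 0 = 0 := by
    have := hcon 1 Γ.one_mem
    rwa [mul_one] at this
  have hup : ∀ l ∈ Γ.comap (MulAut.conj a).toMonoidHom, l 1 0 = 0 := by
    intro l hl
    have hl' : a * l * a⁻¹ ∈ Γ := hl
    have h2 := hcon _ hl'
    have e : a⁻¹ * (a * l * a⁻¹) * b = l * (a⁻¹ * b) := by group
    rw [e, mul_10, h1, mul_zero, add_zero] at h2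
    rcases mul_eq_zero.1 h2 with h | h
    · exact h
    · exfalso
      have hd := det_eq (a⁻¹ * b)
      rw [h, h1, zero_mul, mul_zero, sub_zero] at hd
      exact zero_ne_one hd
  refine no_borel (Γ.comap (MulAut.conj a).toMonoidHom)
    (C := (fun g => a⁻¹ * g) '' C) (U := (fun g => a * g * a⁻¹) ⁻¹' U)
    (hC.image (continuous_const_mul a⁻¹)) ?_ ?_ ?_ ?_ hup
  · intro g
    obtain ⟨γ, hγ, hγC⟩ := hcoc (a * g)
    refine ⟨a⁻¹ * γ * a, ?_, ?_⟩
    · show a * (a⁻¹ * γ * a) * a⁻¹ ∈ Γ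
      have e : a * (a⁻¹ * γ * a) * a⁻¹ = γ := by group
      rw [e]
      exact hγ
    · exact ⟨_, hγC, by group⟩
  · exact hU.preimage (by fun_prop)
  · show a * 1 * a⁻¹ ∈ U
    rw [mul_one, mul_inv_cancel]
    exact h1U
  · intro g hg hgU
    have h2 := hΓU _ hg hgU
    have h3 : a * g * a⁻¹ = 1 := h2
    rw [mul_inv_eq_one] at h3
    exact mul_eq_left.1 h3

end Pool.Agent.H81.FG
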